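import Mathlib
import Pool.Agent.H482.MR.M9

/-!
Independence of pairwise coprime integers, elementary growth facts.
-/

set_option autoImplicit false

open Finset Filter

namespace Pool.Agent.H482.RG

open Pool.Agent.Y855 (TT OP mem_OP NS cl cl_pos cl_ge MI Exc Exc_real LF LF_card)
open Pool.Agent.H482.MR (mainA zz zz_spec Tf mem_TT)

/-- pairwise coprime integers are independent -/
theorem MI_coprime (F : Finset ℤ) (h2 : ∀ n ∈ F, 2 ≤ n.natAbs)
    (hc : ∀ m ∈ F, ∀ n ∈ F, m ≠ n → IsCoprime m n) : MI F := by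
  classical
  intro c hc1 n hn
  obtain ⟨q, hq, hqn⟩ := Nat.exists_prime_and_dvd (by have := h2 n hn; omega : n.natAbs ≠ 1)
  have hfact : Fact q.Prime := ⟨hq⟩
  have h0 : ∀ m ∈ F, (m : ℚ) ≠ 0 := by
    intro m hm
    have := h2 m hm
    have h3 : m ≠ 0 := by rintro rfl; simp at this
    exact_mod_cast h3
  have hval : ∀ m ∈ F, m ≠ n → padicValRat q (m : ℚ) = 0 := by
    intro m hm hmn
    rw [padicValRat.of_int]
    have h3 : ¬ (q : ℤ) ∣ m := by
      intro h4
      have h5 : (q : ℤ) ∣ n := Int.natCast_dvd.2 hqn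
      have h6 := (hc m hm n hn hmn).isUnit_of_dvd' h4 h5
      rw [Int.isUnit_iff] at h6
      have := hq.two_le
      omega
    rw [padicValInt.eq_zero_of_not_dvd h3]
    rfl
  have hvaln : 1 ≤ padicValRat q (n : ℚ) := by
    rw [padicValRat.of_int]
    have h3 : n ≠ 0 := by
      have := h2 n hn
      rintro rfl; simp at this
    have h4 : 1 ≤ padicValInt q n := by
      unfold padicValInt
      exact one_le_padicValNat_of_dvd (Int.natAbs_ne_zero.2 h3) hqn
    exact_mod_cast h4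
  have key : ∀ G : Finset ℤ, G ⊆ F →
      padicValRat q (∏ m ∈ G, (m : ℚ) ^ (c m)) = if n ∈ G then c n * padicValRat q (n : ℚ) else 0 := by
    intro G
    induction G using Finset.induction_on with
    | empty => intro _; simp
    | insert r G hr ih =>
      intro hG
      have hrF := hG (mem_insert_self _ _)
      have hGF : G ⊆ F := fun s hs => hG (mem_insert_of_mem hs)
      have hG0 : ∏ m ∈ G, (m : ℚ) ^ (c m) ≠ 0 := by
        rw [prod_ne_zero_iff]
        intro s hs
        exact zpow_ne_zero _ (h0 s (hGF hs))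
      rw [prod_insert hr, padicValRat.mul (zpow_ne_zero _ (h0 r hrF)) hG0, padicValRat.zpow,
        ih hGF]
      by_cases h : r = n
      · subst h
        rw [if_neg hr, if_pos (mem_insert_self _ _), add_zero]
      · rw [hval r hrF h, mul_zero, zero_add]
        by_cases h3 : n ∈ G
        · rw [if_pos h3, if_pos (mem_insert_of_mem h3)]
        · rw [if_neg h3, if_neg (by rw [mem_insert]; push Not; exact ⟨fun h' => h h'.symm, h3⟩)]
  have h1 := key F (Subset.refl _)
  rw [hc1, padicValRat.one, if_pos hn] at h1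
  rcases mul_eq_zero.1 h1.symm with h3 | h3
  · exact h3
  · omega

/-- a power saving beats the logarithms -/
theorem ev_saving (P C δ : ℝ) (hP : 0 ≤ P) (hC : 0 ≤ C) (hδ : 0 < δ) (r : ℕ) (hr : 1 ≤ r) :
    ∀ᶠ x : ℕ in atTop, P + C * (x : ℝ) ^ (1 - 1 / (r : ℝ)) ≤ δ * (x / (Real.log x) ^ 2) := by
  have hr0 : (0 : ℝ) < r := by exact_mod_cast hr
  have h1 : ∀ᶠ t : ℝ in atTop, ‖(Real.log t) ^ (2 : ℝ)‖ ≤ δ / (P + C + 1) * ‖t ^ (1 / (r : ℝ))‖ :=
    (isLittleO_log_rpow_rpow_atTop (2 : ℝ) (by positivity : (0 : ℝ) < 1 / r)).bound (by positivity)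
  have h2 : ∀ᶠ t : ℝ in atTop, 3 ≤ t := eventually_ge_atTop 3
  have h3 := tendsto_natCast_atTop_atTop (R := ℝ) |>.eventually (h1.and h2)
  filter_upwards [h3] with x hx
  obtain ⟨ha, hx3⟩ := hx
  have hx0 : (0 : ℝ) < x := by linarith
  have hx1 : (1 : ℝ) ≤ x := by linarith
  have hL : 0 < Real.log x := Real.log_pos (by linarith)
  have e : (Real.log x) ^ (2 : ℝ) = (Real.log x) ^ (2 : ℕ) := by
    rw [← Real.rpow_natCast]; norm_num
  rw [e, Real.norm_of_nonneg (by positivity), Real.norm_of_nonneg (by positivity)] at ha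
  rw [← mul_div_assoc, le_div_iff₀ (by positivity)]
  have h4 : (x : ℝ) ^ (1 - 1 / (r : ℝ)) * (x : ℝ) ^ (1 / (r : ℝ)) = x := by
    rw [← Real.rpow_add hx0, sub_add_cancel, Real.rpow_one]
  have h5 : 1 ≤ (x : ℝ) ^ (1 - 1 / (r : ℝ)) := by
    apply Real.one_le_rpow hx1
    have h6 : (1 : ℝ) ≤ r := by exact_mod_cast hr
    have : 1 / (r : ℝ) ≤ 1 := by rw [div_le_one hr0]; exact h6
    linarith
  set u := (x : ℝ) ^ (1 - 1 / (r : ℝ)) with hu
  set v := (x : ℝ) ^ (1 / (r : ℝ)) with hv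
  have h6 : P + C * u ≤ (P + C + 1) * u := by nlinarith
  calc (P + C * u) * (Real.log x) ^ 2 ≤ ((P + C + 1) * u) * (δ / (P + C + 1) * v) := by
        apply mul_le_mul h6 ha (by positivity) (by positivity)
    _ = δ * (u * v) := by field_simp
    _ = δ * x := by rw [h4]

/-- pigeonhole -/
theorem pigeon {ι : Type*} [Fintype ι] (S : Finset ℕ) (f : ι → ℕ) (hf : ∀ i, f i ∈ S) (r : ℕ)
    (h : r * S.card < Fintype.card ι) : ∃ l ∈ S, r < (univ.filter (fun i => f i = l)).card := by
  classical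
  by_contra hcon
  push Not at hcon
  have h1 : (univ : Finset ι).card = ∑ l ∈ S, (univ.filter (fun i => f i = l)).card :=
    card_eq_sum_card_fiberwise (fun i _ => hf i)
  have h2 : ∑ l ∈ S, (univ.filter (fun i => f i = l)).card ≤ ∑ _l ∈ S, r := sum_le_sum hcon
  rw [sum_const, smul_eq_mul] at h2
  rw [card_univ] at h1
  rw [mul_comm] at h2
  omega

end Pool.Agent.H482.RG
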