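import Mathlib
import Pool.Agent.H482.RG.R1

/-!
A bounded number of independent obstructed conditions.
-/

set_option autoImplicit false

open Finset Filter

namespace Pool.Agent.H482.RG

open Pool.Agent.Y855 (TT OP mem_OP NS cl cl_pos cl_ge MI MIf Exc Exc_real LF LF_card order_iff')
open Pool.Agent.H482.MR (mainA zz zz_spec Tf mem_TT)

/-- every element of `N` is a square or a primitive root modulo `p` -/
def SqOrRoot (N : Finset ℤ) (p : ℕ) : Prop :=
  ∀ n ∈ N, IsSquare (n : ZMod p) ∨ orderOf (n : ZMod p) = p - 1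

/-- a finite set of integers and a set of primes -/
structure Obj where
  /-- the integers -/
  N : Finset ℤ
  /-- the condition -/
  C : Set ℕ

open Classical in
/-- the good primes `p ≤ x` -/
noncomputable def Gd (O : Obj) (x : ℕ) : Finset ℕ :=
  (Icc 1 x).filter (fun p => p.Prime ∧ p ∈ O.C ∧ SqOrRoot O.N p)

/-- few good primes -/
def Obj.Stuck (O : Obj) : Prop :=
  ∀ δ : ℝ, 0 < δ → ∀ᶠ x : ℕ in atTop, ((Gd O x).card : ℝ) ≤ δ * (x / (Real.log x) ^ 2)

/-- an allowed class -/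
def Allowed (A m : ℕ) : Prop := m ≠ 0 ∧ A.Coprime m ∧ ∀ q ∈ m.primeFactors, 3 ≤ q → A % q ≠ 1

/-- a compatible and independent family of `k` obstructed conditions, the class modulo `8` is `c` -/
def Fam (c k : ℕ) (O : Fin k → Obj) (A m : ℕ) : Prop :=
  (∀ i, (O i).Stuck) ∧ (∀ i, ∀ n ∈ (O i).N, n ≠ 0) ∧
  (∀ b : Fin k → ℤ, (∀ i, b i ∈ (O i).N) → MIf b) ∧
  Allowed A m ∧ 24 ∣ m ∧ A % 8 = c ∧ ∀ p : ℕ, p.Prime → p ≡ A [MOD m] → ∀ i, p ∈ (O i).C

/-- a prime which is not good has a bad base and a large prime -/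
theorem not_good (x z : ℕ) (O : Obj) (h0 : ∀ n ∈ O.N, n ≠ 0) (p : ℕ) (hpx : p ≤ x) (hp : p.Prime)
    (hp2 : 2 < p) (hpz : ∀ q ∈ OP z, ¬ q ∣ p - 1) (hpC : p ∈ O.C)
    (hpN : ∀ n ∈ O.N, n.natAbs < p) (hG : p ∉ Gd O x) :
    ∃ n ∈ O.N, ∃ l ∈ LF z p, (n : ZMod p) ^ ((p - 1) / l) = 1 := by
  classical
  have hfact : Fact p.Prime := ⟨hp⟩
  have h1 : ¬ SqOrRoot O.N p := by
    intro h
    apply hG
    unfold Gd
    rw [mem_filter, mem_Icc]
    exact ⟨⟨hp.one_le, hpx⟩, hp, hpC, h⟩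
  unfold SqOrRoot at h1
  push Not at h1
  obtain ⟨n, hn, hsq, hord⟩ := h1
  have hpn : ¬ (p : ℤ) ∣ n := by
    intro h
    have h3 : p ∣ n.natAbs := Int.natCast_dvd.1 h
    have h4 := h0 n hn
    have := Nat.le_of_dvd (by omega) h3
    have := hpN n hn
    omega
  rw [Ne, order_iff' n p hp2 hpn] at hord
  have h2 : legendreSym p n = -1 := (legendreSym.eq_neg_one_iff p).2 hsq
  have h3 : ∃ l : ℕ, l.Prime ∧ 3 ≤ l ∧ l ∣ p - 1 ∧ (n : ZMod p) ^ ((p - 1) / l) = 1 := by
    by_contra hcon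
    exact hord ⟨h2, hcon⟩
  obtain ⟨l, hl, hl3, hlp, hln⟩ := h3
  refine ⟨n, hn, l, ?_, hln⟩
  unfold LF
  rw [mem_filter, Nat.mem_primeFactors]
  refine ⟨⟨hl, hlp, by omega⟩, ?_⟩
  by_contra hcon
  exact hpz l (mem_OP.2 ⟨hl, hl3, by omega⟩) hlp

theorem few_stuck : ∃ R : ℕ, ∀ c (O : Fin R → Obj) (A m : ℕ), ¬ Fam c R O A m := by
  classical
  obtain ⟨K, hK, x₀, hx₀, H⟩ := mainA 1 1 one_pos
  have hK0 : 0 < K := by linarith
  obtain ⟨r, hr⟩ : ∃ r : ℕ, r = ⌈4 * K⌉₊ := ⟨_, rfl⟩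
  have hrK : 4 * K ≤ r := by rw [hr]; exact Nat.le_ceil _
  have hr2 : 2 ≤ r := by
    have : (2 : ℝ) ≤ r := by linarith
    exact_mod_cast this
  obtain ⟨R, hR⟩ : ∃ R : ℕ, R = r * ⌈2 * K⌉₊ + 1 := ⟨_, rfl⟩
  refine ⟨R, fun c O A m hFam => ?_⟩
  obtain ⟨hS, h0, hMIf, ⟨hm1', hAm, hAq⟩, -, -, hcl⟩ := hFam
  have hm1 : 1 ≤ m := Nat.one_le_iff_ne_zero.2 hm1'
  have hm0 : (0 : ℝ) < m := by exact_mod_cast hm1
  have hR0 : (0 : ℝ) < R := by rw [hR]; positivity
  -- bound for the integers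
  obtain ⟨P, hP⟩ : ∃ P : ℕ, P = ∑ i, ∑ n ∈ (O i).N, n.natAbs + R + 2 := ⟨_, rfl⟩
  have hPn : ∀ i, ∀ n ∈ (O i).N, n.natAbs ≤ P := by
    intro i n hn
    have h1 : n.natAbs ≤ ∑ n ∈ (O i).N, n.natAbs :=
      single_le_sum (f := fun n : ℤ => n.natAbs) (fun _ _ => Nat.zero_le _) hn
    have h2 : ∑ n ∈ (O i).N, n.natAbs ≤ ∑ i, ∑ n ∈ (O i).N, n.natAbs :=
      single_le_sum (f := fun i => ∑ n ∈ (O i).N, n.natAbs) (fun _ _ => Nat.zero_le _) (mem_univ i)
    omega
  have hPR : R ≤ P := by omega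
  -- the transversals
  obtain ⟨Tr, hTr⟩ : ∃ Tr : Finset (Fin R → ℤ), Tr = Fintype.piFinset (fun i => (O i).N) := ⟨_, rfl⟩
  have hTrmem : ∀ b ∈ Tr, ∀ i, b i ∈ (O i).N := by
    intro b hb i
    rw [hTr, Fintype.mem_piFinset] at hb
    exact hb i
  have hinj : ∀ b ∈ Tr, Function.Injective b := fun b hb =>
    (hMIf b (hTrmem b hb)).inj (fun i => h0 i _ (hTrmem b hb i))
  have hMI : ∀ b ∈ Tr, MI (univ.image b) := fun b hb =>
    (hMIf b (hTrmem b hb)).image (fun i => h0 i _ (hTrmem b hb i))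
  -- the constants
  obtain ⟨δ, hδ⟩ : ∃ δ : ℝ, δ = 1 / (4 * (m * K)) := ⟨_, rfl⟩
  have hδ0 : 0 < δ := by rw [hδ]; positivity
  have hev1 := ev_saving P (Tr.card * (40 * P) ^ (2 * r)) δ (by positivity) (by positivity) hδ0 r
    (by omega)
  have hev2 : ∀ᶠ x : ℕ in atTop, ∀ i, ((Gd (O i) x).card : ℝ) ≤
      (δ / R) * (x / (Real.log x) ^ 2) := by
    rw [eventually_all]
    intro i
    exact hS i (δ / R) (by positivity)
  obtain ⟨X₁, -, hX₁⟩ := zz_spec K (by linarith) 2 1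
  obtain ⟨x, ⟨h1, h2⟩, hx⟩ := ((hev1.and hev2).and
    (eventually_ge_atTop (x₀ + X₁ + ⌈Real.exp m⌉₊))).exists
  have hx1 : x₀ ≤ x := by omega
  have hx3 : X₁ ≤ x := by omega
  have hxn : 3 ≤ x := hx₀.trans hx1
  have hxr : (3 : ℝ) ≤ x := by exact_mod_cast hxn
  have hx0 : (0 : ℝ) < x := by linarith
  have hL0 : 0 < Real.log x := Real.log_pos (by linarith)
  have hlog : (m : ℝ) ≤ Real.log x := by
    rw [Real.le_log_iff_exp_le hx0]
    refine (Nat.le_ceil _).trans ?_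
    exact_mod_cast (by omega : ⌈Real.exp m⌉₊ ≤ x)
  obtain ⟨hz1, hz2, hz3, hz4, hz5⟩ := hX₁ x hx3
  obtain ⟨g1, -, hNS, -, hL4, -⟩ := H x hx1 (zz K x) hz1 hz2
  set z := zz K x with hz
  have hzr : (2 : ℝ) ≤ z := hz4
  have hzn : 2 ≤ z := by exact_mod_cast hzr
  have hlz : 0 < Real.log z := Real.log_pos (by linarith)
  have hzL : Real.log z ≤ Real.log x := by
    apply Real.log_le_log (by linarith)
    refine le_trans ?_ hz2
    calc (z : ℝ) = (z : ℝ) ^ (1 : ℝ) := (Real.rpow_one _).symm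
      _ ≤ (z : ℝ) ^ K := Real.rpow_le_rpow_of_exponent_le (by linarith) (by linarith)
  -- the lower bound
  have hlow : 2 * (δ * (x / (Real.log x) ^ 2)) < ((NS x m A (OP z)).card : ℝ) := by
    have h3 := hNS m A hm1 (by
      refine hlog.trans ?_
      exact le_self_pow₀ (by linarith) (by norm_num)) hAm hAq
    have h4 := (abs_le.1 h3).1
    have h5 := (g1 1 (Or.inl rfl)).1
    have h6 : ((Tf x z 1).card : ℝ) ≤ (TT x z).card := by
      exact_mod_cast card_le_card (filter_subset _ _)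
    have h7 : (x : ℝ) / (K * (Real.log x) ^ 2) ≤ x / (K * (Real.log x * Real.log z)) := by
      apply div_le_div_of_nonneg_left hx0.le (by positivity)
      apply mul_le_mul_of_nonneg_left _ hK0.le
      rw [sq]
      exact mul_le_mul_of_nonneg_left hzL hL0.le
    have h8 : (x : ℝ) / (K * (Real.log x) ^ 2) ≤ (TT x z).card := by linarith
    have h9 := cl_ge m hm1
    rw [min_self] at h4
    have h10 : 1 / (m : ℝ) * (x / (K * (Real.log x) ^ 2)) ≤ cl m * (TT x z).card := by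
      apply mul_le_mul h9 h8 (by positivity) (cl_pos m hm1).le
    have h11 : δ * (x / (Real.log x) ^ 2) = 1 / 4 * (1 / (m : ℝ) * (x / (K * (Real.log x) ^ 2))) := by
      rw [hδ]
      field_simp
    rw [h11]
    have h12 : 0 < 1 / (m : ℝ) * (x / (K * (Real.log x) ^ 2)) := by positivity
    linarith
  -- the covering
  have hsub : NS x m A (OP z) ⊆ Icc 1 P ∪ (univ.biUnion (fun i => Gd (O i) x) ∪
      Tr.biUnion (fun b => Exc x r (univ.image b))) := by
    intro p hp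
    have hp' := hp
    unfold NS at hp
    rw [mem_filter, mem_Icc] at hp
    obtain ⟨⟨hp1, hpx⟩, hpp, hpA, hpq⟩ := hp
    have hpi := hcl p hpp hpA
    rw [mem_union, mem_union]
    by_cases hpP : p ≤ P
    · left
      rw [mem_Icc]
      exact ⟨hp1, hpP⟩
    right
    by_cases hpG : ∃ i, p ∈ Gd (O i) x
    · left
      rw [mem_biUnion]
      obtain ⟨i, hi⟩ := hpG
      exact ⟨i, mem_univ i, hi⟩
    right
    push Not at hpG
    have hch : ∀ i, ∃ n ∈ (O i).N, ∃ l ∈ LF z p, (n : ZMod p) ^ ((p - 1) / l) = 1 := by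
      intro i
      refine not_good x z (O i) (h0 i) p hpx hpp (by omega) hpq (hpi i) ?_ (hpG i)
      intro n hn
      have := hPn i n hn
      omega
    choose b hb l hl hbl using hch
    have hbT : b ∈ Tr := by
      rw [hTr, Fintype.mem_piFinset]
      exact hb
    rw [mem_biUnion]
    refine ⟨b, hbT, ?_⟩
    have hpT : p ∈ TT x z := by
      rw [mem_TT]
      exact ⟨⟨hp1, hpx⟩, hpp, hpq⟩
    have hLFc : ((LF z p).card : ℝ) ≤ 2 * K := (LF_card x z p hzn hpT).trans hz3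
    have hLFn : (LF z p).card ≤ ⌈2 * K⌉₊ := by
      have : ((LF z p).card : ℝ) ≤ ((⌈2 * K⌉₊ : ℕ) : ℝ) := hLFc.trans (Nat.le_ceil _)
      exact_mod_cast this
    obtain ⟨l₀, hl₀, hcard⟩ := pigeon (LF z p) l hl r (by
      rw [Fintype.card_fin, hR]
      have := Nat.mul_le_mul_left r hLFn
      omega)
    unfold LF at hl₀
    rw [mem_filter, Nat.mem_primeFactors] at hl₀
    obtain ⟨⟨hl0p, hl0d, -⟩, hl0z⟩ := hl₀
    unfold Exc
    rw [mem_filter, mem_Icc]
    refine ⟨⟨hp1, hpx⟩, hpp, ?_, l₀, hl0p, hl0d, ?_, ?_⟩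
    · intro n hn hdvd
      obtain ⟨i, -, rfl⟩ := mem_image.1 hn
      have h3 := h0 i _ (hb i)
      have h4 := Nat.le_of_dvd (by omega) (Int.natCast_dvd.1 hdvd)
      have h5 := hPn i _ (hb i)
      omega
    · -- `x ^ 2 ≤ l ^ r`
      have h3 : Real.log x * 2 ≤ Real.log l₀ * r := by
        rw [div_le_iff₀ hlz] at hz3
        have h4 : Real.log z ≤ Real.log l₀ := by
          apply Real.log_le_log (by linarith)
          exact_mod_cast hl0z.le
        calc Real.log x * 2 ≤ 2 * K * Real.log z * 2 := by linarith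
          _ = (4 * K) * Real.log z := by ring
          _ ≤ r * Real.log l₀ := by
              apply mul_le_mul hrK h4 hlz.le (by positivity)
          _ = Real.log l₀ * r := by ring
      have h5 : Real.log ((x : ℝ) ^ 2) ≤ Real.log ((l₀ : ℝ) ^ r) := by
        rw [Real.log_pow, Real.log_pow]
        push_cast
        linarith
      have hl00 : (0 : ℝ) < l₀ := by exact_mod_cast hl0p.pos
      have h6 := (Real.log_le_log_iff (by positivity) (by positivity)).1 h5
      exact_mod_cast h6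
    · have h3 : ((univ.filter (fun i => l i = l₀)).image b) ⊆
          (univ.image b).filter (fun n : ℤ => (n : ZMod p) ^ ((p - 1) / l₀) = 1) := by
        intro n hn
        obtain ⟨i, hi, rfl⟩ := mem_image.1 hn
        rw [mem_filter] at hi ⊢
        refine ⟨mem_image_of_mem _ (mem_univ i), ?_⟩
        rw [← hi.2]
        exact hbl i
      have h4 := card_le_card h3
      rw [card_image_of_injective _ (hinj b hbT)] at h4
      omega
  have hcard := (card_le_card hsub).trans ((card_union_le _ _).trans (Nat.add_le_add_left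
    ((card_union_le _ _).trans (Nat.add_le_add card_biUnion_le card_biUnion_le)) _))
  rw [Nat.card_Icc] at hcard
  have hcard' : ((NS x m A (OP z)).card : ℝ) ≤ P +
      (∑ i, ((Gd (O i) x).card : ℝ) + ∑ b ∈ Tr, ((Exc x r (univ.image b)).card : ℝ)) := by
    have h3 : (NS x m A (OP z)).card ≤ P +
      (∑ i, (Gd (O i) x).card + ∑ b ∈ Tr, (Exc x r (univ.image b)).card) := by omega
    exact_mod_cast h3
  have hsum1 : ∑ i, ((Gd (O i) x).card : ℝ) ≤ δ * (x / (Real.log x) ^ 2) := by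
    calc ∑ i, ((Gd (O i) x).card : ℝ)
        ≤ ∑ _i : Fin R, (δ / R) * (x / (Real.log x) ^ 2) := sum_le_sum fun i _ => h2 i
      _ = δ * (x / (Real.log x) ^ 2) := by
          rw [sum_const, card_univ, Fintype.card_fin, nsmul_eq_mul]
          field_simp
  have hsum2 : ∑ b ∈ Tr, ((Exc x r (univ.image b)).card : ℝ) ≤
      Tr.card * (40 * P) ^ (2 * r) * (x : ℝ) ^ (1 - 1 / (r : ℝ)) := by
    calc ∑ b ∈ Tr, ((Exc x r (univ.image b)).card : ℝ)
        ≤ ∑ _b ∈ Tr, (40 * (P : ℝ)) ^ (2 * r) * (x : ℝ) ^ (1 - 1 / (r : ℝ)) := by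
          apply sum_le_sum
          intro b hb
          apply Exc_real x r (by omega) hr2 (univ.image b) _ (hMI b hb) P (by omega)
          · intro n hn
            obtain ⟨i, -, rfl⟩ := mem_image.1 hn
            exact hPn i _ (hTrmem b hb i)
          · refine (card_image_le).trans ?_
            rw [card_univ, Fintype.card_fin]
            omega
          · intro n hn
            obtain ⟨i, -, rfl⟩ := mem_image.1 hn
            exact h0 i _ (hTrmem b hb i)
      _ = Tr.card * (40 * P) ^ (2 * r) * (x : ℝ) ^ (1 - 1 / (r : ℝ)) := by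
          rw [sum_const, nsmul_eq_mul]
          ring
  linarith

end Pool.Agent.H482.RG
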