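import Mathlib
import Pool.Agent.H482.RG.R2

/-!
The finite exceptional set.
-/

set_option autoImplicit false

open Finset Filter

namespace Pool.Agent.H482.RG

open Pool.Agent.Y855 (MIf)

theorem val_prod_zero {ι : Type*} (q : ℕ) [Fact q.Prime] (f : ι → ℚ) (s : Finset ι) :
    (∀ i ∈ s, f i ≠ 0 ∧ padicValRat q (f i) = 0) → padicValRat q (∏ i ∈ s, f i) = 0 := by
  classical
  induction s using Finset.induction_on with
  | empty => intro _; simp
  | insert r G hr ih =>
    intro h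
    have h1 := h r (mem_insert_self _ _)
    have h2 : ∏ i ∈ G, f i ≠ 0 := by
      rw [prod_ne_zero_iff]
      exact fun i hi => (h i (mem_insert_of_mem hi)).1
    rw [prod_insert hr, padicValRat.mul h1.1 h2, h1.2, ih (fun i hi => h i (mem_insert_of_mem hi)),
      add_zero]

/-- adding an integer with a new prime factor preserves independence -/
theorem MIf_cons {k : ℕ} (b : Fin (k + 1) → ℤ) (h0 : ∀ i, b i ≠ 0) (hb : MIf (fun i : Fin k => b i.succ))
    (l : ℕ) (hl : l.Prime) (hl0 : l ∣ (b 0).natAbs) (hli : ∀ i : Fin k, ¬ l ∣ (b i.succ).natAbs) :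
    MIf b := by
  have hfact : Fact l.Prime := ⟨hl⟩
  intro e he
  have h0' : ∀ i, (b i : ℚ) ≠ 0 := fun i => by exact_mod_cast h0 i
  rw [Fin.prod_univ_succ] at he
  have h1 : padicValRat l (∏ i : Fin k, (b i.succ : ℚ) ^ (e i.succ)) = 0 := by
    apply val_prod_zero
    intro i _
    refine ⟨zpow_ne_zero _ (h0' _), ?_⟩
    rw [padicValRat.zpow, padicValRat.of_int, padicValInt.eq_zero_of_not_dvd
      (fun h => hli i (Int.natCast_dvd.1 h))]
    simp
  have h2 : ∏ i : Fin k, (b i.succ : ℚ) ^ (e i.succ) ≠ 0 := by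
    rw [prod_ne_zero_iff]
    exact fun i _ => zpow_ne_zero _ (h0' _)
  have h3 := congrArg (padicValRat l) he
  rw [padicValRat.mul (zpow_ne_zero _ (h0' 0)) h2, h1, add_zero, padicValRat.one, padicValRat.zpow,
    padicValRat.of_int] at h3
  have h4 : 1 ≤ padicValInt l (b 0) := by
    unfold padicValInt
    exact one_le_padicValNat_of_dvd (Int.natAbs_ne_zero.2 (h0 0)) hl0
  have h5 : e 0 = 0 := by
    rcases mul_eq_zero.1 h3 with h | h
    · exact h
    · omega
  have h6 : ∏ i : Fin k, (b i.succ : ℚ) ^ (e i.succ) = 1 := by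
    rw [h5, zpow_zero, one_mul] at he
    exact he
  have h7 := hb (fun i => e i.succ) h6
  intro i
  refine Fin.cases ?_ (fun j => ?_) i
  · exact h5
  · exact h7 j

/-- a base for the class `c` modulo `8` -/
def Base (c : ℕ) (U : Finset ℕ) (A m : ℕ) : Prop :=
  (∀ u ∈ U, u.Prime) ∧ m.primeFactors ⊆ U ∧ Allowed A m ∧ 24 ∣ m ∧ A % 8 = c ∧
  ∀ O : Obj, (∀ n ∈ O.N, n ≠ 0 ∧ ∃ l : ℕ, l.Prime ∧ l ∉ U ∧ l ∣ n.natAbs) →
    (∃ A' m', Allowed A' m' ∧ m ∣ m' ∧ A' ≡ A [MOD m] ∧
      ∀ p : ℕ, p.Prime → p ≡ A' [MOD m'] → p ∈ O.C) → ¬ O.Stuck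

theorem allowed_24 (A : ℕ) (h : A = 17 ∨ A = 11 ∨ A = 5 ∨ A = 23) : Allowed A 24 := by
  refine ⟨by norm_num, ?_, ?_⟩
  · rcases h with rfl | rfl | rfl | rfl <;> decide
  · intro q hq hq3
    have hqp := Nat.prime_of_mem_primeFactors hq
    have hqd := Nat.dvd_of_mem_primeFactors hq
    have h1 : q ∣ 2 ^ 3 * 3 := by simpa using hqd
    rcases hqp.dvd_mul.1 h1 with h2 | h2
    · have h3 := Nat.le_of_dvd (by norm_num) (hqp.dvd_of_dvd_pow h2)
      omega
    · have h3 := Nat.le_of_dvd (by norm_num) h2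
      have h4 : q = 3 := by omega
      subst h4
      rcases h with rfl | rfl | rfl | rfl <;> norm_num

theorem exists_base (c : ℕ) (hc : c = 1 ∨ c = 3 ∨ c = 5 ∨ c = 7) : ∃ U A m, Base c U A m := by
  classical
  obtain ⟨R, hR⟩ := few_stuck
  have h0 : ∃ (O : Fin 0 → Obj) (A m : ℕ), Fam c 0 O A m := by
    obtain ⟨A, hA, hA8⟩ : ∃ A, (A = 17 ∨ A = 11 ∨ A = 5 ∨ A = 23) ∧ A % 8 = c := by
      rcases hc with rfl | rfl | rfl | rfl
      · exact ⟨17, by norm_num, by norm_num⟩
      · exact ⟨11, by norm_num, by norm_num⟩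
      · exact ⟨5, by norm_num, by norm_num⟩
      · exact ⟨23, by norm_num, by norm_num⟩
    exact ⟨fun i => i.elim0, A, 24, fun i => i.elim0, fun i => i.elim0,
      fun b _ e _ i => i.elim0, allowed_24 A hA, dvd_refl _, hA8, fun _ _ _ i => i.elim0⟩
  obtain ⟨k, ⟨O, A, m, hF⟩, hk1⟩ : ∃ k, (∃ (O : Fin k → Obj) (A m : ℕ), Fam c k O A m) ∧
      ¬ ∃ (O : Fin (k + 1) → Obj) (A m : ℕ), Fam c (k + 1) O A m := by
    by_contra hcon
    push Not at hcon
    have hall : ∀ k, ∃ (O : Fin k → Obj) (A m : ℕ), Fam c k O A m := by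
      intro k
      induction k with
      | zero => exact h0
      | succ k ih => exact hcon k ih
    obtain ⟨O, A, m, h⟩ := hall R
    exact hR c O A m h
  obtain ⟨h1, h2, h3, h4, h5, h6, h7⟩ := hF
  refine ⟨m.primeFactors ∪ univ.biUnion (fun i => (O i).N.biUnion (fun n => n.natAbs.primeFactors)),
    A, m, ?_, subset_union_left, h4, h5, h6, ?_⟩
  · intro u hu
    rw [mem_union, mem_biUnion] at hu
    rcases hu with hu | ⟨i, -, hu⟩
    · exact Nat.prime_of_mem_primeFactors hu
    · rw [mem_biUnion] at hu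
      obtain ⟨n, -, hu⟩ := hu
      exact Nat.prime_of_mem_primeFactors hu
  · rintro P hP ⟨A', m', hA', hmm, hAA, hPC⟩ hS
    apply hk1
    refine ⟨Fin.cons P O, A', m', ?_, ?_, ?_, hA', h5.trans hmm, ?_, ?_⟩
    · intro i
      refine Fin.cases ?_ (fun j => ?_) i
      · exact hS
      · exact h1 j
    · intro i
      refine Fin.cases ?_ (fun j => ?_) i
      · exact fun n hn => (hP n hn).1
      · exact h2 j
    · intro b hb
      have hb0 : b 0 ∈ P.N := by
        have := hb 0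
        rwa [Fin.cons_zero] at this
      have hbi : ∀ i : Fin k, b i.succ ∈ (O i).N := by
        intro i
        have := hb i.succ
        rwa [Fin.cons_succ] at this
      obtain ⟨hne, l, hl, hlU, hln⟩ := hP _ hb0
      apply MIf_cons b _ (h3 _ hbi) l hl hln
      · intro i hli
        apply hlU
        rw [mem_union, mem_biUnion]
        right
        refine ⟨i, mem_univ i, ?_⟩
        rw [mem_biUnion]
        refine ⟨_, hbi i, ?_⟩
        rw [Nat.mem_primeFactors]
        exact ⟨hl, hli, Int.natAbs_ne_zero.2 (h2 i _ (hbi i))⟩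
      · intro i
        refine Fin.cases ?_ (fun j => ?_) i
        · exact hne
        · exact h2 j _ (hbi j)
    · have h8 : 8 ∣ m := (by norm_num : 8 ∣ 24).trans h5
      have h9 : A' % 8 = A % 8 := hAA.of_dvd h8
      rw [h9, h6]
    · intro p hp hpA i
      refine Fin.cases ?_ (fun j => ?_) i
      · exact hPC p hp hpA
      · exact h7 p hp ((hpA.of_dvd hmm).trans hAA) j

end Pool.Agent.H482.RG
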