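import Mathlib
import Pool.Agent.H482.RG.R3

/-!
Prescribed residue classes and quadratic symbols.
-/

set_option autoImplicit false

open Finset Filter

namespace Pool.Agent.H482.RG

theorem jac_congr (b : ℕ) (hb : b ≠ 0) (u v : ℤ)
    (h : ∀ l : ℕ, l.Prime → l ∣ b → jacobiSym u l = jacobiSym v l) : jacobiSym u b = jacobiSym v b := by
  have h1 : ∀ l ∈ b.primeFactorsList, l ≠ 0 := fun l hl => (Nat.prime_of_mem_primeFactorsList hl).ne_zero
  rw [← Nat.prod_primeFactorsList hb, jacobiSym.list_prod_right h1, jacobiSym.list_prod_right h1]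
  congr 1
  apply List.map_congr_left
  intro l hl
  exact h l (Nat.prime_of_mem_primeFactorsList hl) (Nat.dvd_of_mem_primeFactorsList hl)

theorem jac_same (n : ℤ) (hn : n ≠ 0) (p p₀ : ℕ) (hp : Odd p) (hp₀ : Odd p₀)
    (h8 : p % 8 = p₀ % 8)
    (h : ∀ l : ℕ, l.Prime → l ≠ 2 → l ∣ n.natAbs → jacobiSym p l = jacobiSym p₀ l) :
    jacobiSym n p = jacobiSym n p₀ := by
  have hχ : ZMod.χ₄ p = ZMod.χ₄ p₀ := by
    rw [ZMod.χ₄_nat_mod_four p, ZMod.χ₄_nat_mod_four p₀, show p % 4 = p₀ % 4 by omega]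
  have hχ8 : ZMod.χ₈ p = ZMod.χ₈ p₀ := by
    rw [ZMod.χ₈_nat_mod_eight p, ZMod.χ₈_nat_mod_eight p₀, h8]
  obtain ⟨e, m, hm, hnm⟩ := Nat.exists_eq_two_pow_mul_odd (Int.natAbs_ne_zero.2 hn)
  have hm0 : m ≠ 0 := by
    rintro rfl
    exact absurd hm (by decide)
  have hmodd : ∀ l : ℕ, l ∣ m → l ≠ 2 := by
    rintro l hl rfl
    exact (Nat.not_even_iff_odd.2 hm) (even_iff_two_dvd.2 hl)
  have key0 : jacobiSym (m : ℤ) p = jacobiSym (m : ℤ) p₀ := by
    rw [jacobiSym.quadratic_reciprocity' hm hp, jacobiSym.quadratic_reciprocity' hm hp₀]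
    unfold qrSign
    rw [hχ, jac_congr m hm0 p p₀ (fun l hl hlm => h l hl (hmodd l hlm)
      (by rw [hnm]; exact hlm.mul_left _))]
  have key1 : jacobiSym 2 p = jacobiSym 2 p₀ := by
    rw [jacobiSym.at_two hp, jacobiSym.at_two hp₀, hχ8]
  have key : jacobiSym (n.natAbs : ℤ) p = jacobiSym (n.natAbs : ℤ) p₀ := by
    rw [hnm]
    push_cast
    rw [jacobiSym.mul_left, jacobiSym.mul_left, jacobiSym.pow_left, jacobiSym.pow_left, key0, key1]
  have key2 : jacobiSym (-1) p = jacobiSym (-1) p₀ := by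
    rw [jacobiSym.at_neg_one hp, jacobiSym.at_neg_one hp₀, hχ]
  rcases Int.natAbs_eq n with h1 | h1
  · rw [h1, key]
  · rw [h1, neg_eq_neg_one_mul, jacobiSym.mul_left, jacobiSym.mul_left, key, key2]

theorem recip_same (l : ℕ) (hl : Odd l) (p p₀ : ℕ) (hp : Odd p) (hp₀ : Odd p₀)
    (h4 : p % 4 = p₀ % 4) (h : jacobiSym l p = jacobiSym l p₀) : jacobiSym p l = jacobiSym p₀ l := by
  have hχ : ZMod.χ₄ p = ZMod.χ₄ p₀ := by
    rw [ZMod.χ₄_nat_mod_four p, ZMod.χ₄_nat_mod_four p₀, h4]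
  have hs := qrSign.sq_eq_one hp hl
  rw [jacobiSym.quadratic_reciprocity' hl hp, jacobiSym.quadratic_reciprocity' hl hp₀] at h
  have e : qrSign p₀ l = qrSign p l := by
    unfold qrSign
    rw [hχ]
  rw [e] at h
  have hne : qrSign p l ≠ 0 := by
    intro h0
    rw [h0] at hs
    norm_num at hs
  exact mul_left_cancel₀ hne h

theorem odd_of_mod8 {p c : ℕ} (hc : c = 1 ∨ c = 3 ∨ c = 5 ∨ c = 7) (h : p % 8 = c) : Odd p := by
  rw [Nat.odd_iff]
  omega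

/-- the class of `p` modulo a prime divisor of a base -/
theorem exists_class (l : ℕ) (hl : l.Prime) (hl5 : 5 ≤ l) (p₀ : ℕ) (hp₀ : p₀.Coprime l) :
    ∃ u : ℕ, u.Coprime l ∧ u % l ≠ 1 ∧ jacobiSym u l = jacobiSym p₀ l := by
  have hfact : Fact l.Prime := ⟨hl⟩
  have hodd : Odd l := hl.odd_of_ne_two (by omega)
  have hpm : jacobiSym p₀ l = 1 ∨ jacobiSym p₀ l = -1 := by
    apply jacobiSym.eq_one_or_neg_one
    rw [Int.gcd_natCast_natCast]
    exact hp₀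
  rcases hpm with h | h
  · refine ⟨4, ?_, ?_, ?_⟩
    · exact (Nat.Coprime.pow_left 2 (Nat.coprime_two_left.2 hodd) : Nat.Coprime (2 ^ 2) l)
    · rw [Nat.mod_eq_of_lt (by omega)]
      norm_num
    · rw [h]
      exact jacobiSym.at_four hodd
  · refine ⟨p₀, hp₀, ?_, rfl⟩
    intro h1
    have h2 : jacobiSym (p₀ : ℤ) l = jacobiSym 1 l := by
      apply jacobiSym.mod_left'
      have h3 : ((p₀ % l : ℕ) : ℤ) = ((1 % l : ℕ) : ℤ) := by
        rw [h1, Nat.mod_eq_of_lt hl.one_lt]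
      push_cast at h3
      exact h3
    rw [h2, jacobiSym.one_left] at h
    norm_num at h

theorem jac_of_modEq {p q u : ℕ} (h : p ≡ u [MOD q]) : jacobiSym p q = jacobiSym u q := by
  apply jacobiSym.mod_left'
  have h3 : ((p % q : ℕ) : ℤ) = ((u % q : ℕ) : ℤ) := by
    unfold Nat.ModEq at h
    rw [h]
  push_cast at h3
  exact h3

/-- `n ≠ 0` has a prime factor outside `U` -/
def Out (U : Finset ℕ) (n : ℤ) : Prop := n ≠ 0 ∧ ∃ l : ℕ, l.Prime ∧ l ∉ U ∧ l ∣ n.natAbs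

/-- all the elements of `N` can be nonresidues, whatever the symbols of the primes of `U` are -/
def Star (U : Finset ℕ) (c : ℕ) (N : Finset ℤ) : Prop :=
  ∀ ε : ℕ → ℤ, (∀ u, ε u = 1 ∨ ε u = -1) → ∃ p₀ : ℕ, p₀.Prime ∧ p₀ % 8 = c ∧
    (∀ u ∈ U, u ≠ 2 → jacobiSym u p₀ = ε u) ∧ ∀ n ∈ N, jacobiSym n p₀ = -1

/-- the exceptional set -/
def Univ (U : Finset ℕ) : Prop := 2 ∈ U ∧ 3 ∈ U ∧ (∀ u ∈ U, u.Prime) ∧
    ∀ c, (c = 1 ∨ c = 3 ∨ c = 5 ∨ c = 7) → ∃ V A m, V ⊆ U ∧ Base c V A m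

theorem exists_Univ : ∃ U, Univ U := by
  classical
  obtain ⟨U₁, A₁, m₁, h₁⟩ := exists_base 1 (by norm_num)
  obtain ⟨U₃, A₃, m₃, h₃⟩ := exists_base 3 (by norm_num)
  obtain ⟨U₅, A₅, m₅, h₅⟩ := exists_base 5 (by norm_num)
  obtain ⟨U₇, A₇, m₇, h₇⟩ := exists_base 7 (by norm_num)
  refine ⟨insert 2 (insert 3 ((U₁ ∪ U₃) ∪ (U₅ ∪ U₇))), mem_insert_self _ _,
    mem_insert_of_mem (mem_insert_self _ _), ?_, ?_⟩
  · intro u hu
    simp only [mem_insert, mem_union] at hu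
    rcases hu with rfl | rfl | (hu | hu) | (hu | hu)
    · exact Nat.prime_two
    · exact Nat.prime_three
    · exact h₁.1 u hu
    · exact h₃.1 u hu
    · exact h₅.1 u hu
    · exact h₇.1 u hu
  · rintro c (rfl | rfl | rfl | rfl)
    · refine ⟨U₁, A₁, m₁, fun u hu => ?_, h₁⟩
      simp only [mem_insert, mem_union]
      tauto
    · refine ⟨U₃, A₃, m₃, fun u hu => ?_, h₃⟩
      simp only [mem_insert, mem_union]
      tauto
    · refine ⟨U₅, A₅, m₅, fun u hu => ?_, h₅⟩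
      simp only [mem_insert, mem_union]
      tauto
    · refine ⟨U₇, A₇, m₇, fun u hu => ?_, h₇⟩
      simp only [mem_insert, mem_union]
      tauto

open Classical in
/-- the good primes `p ≤ x` -/
noncomputable def Ex (c : ℕ) (N N₂ : Finset ℤ) (M a x : ℕ) : Finset ℕ :=
  (Icc 1 x).filter (fun p => p.Prime ∧ p % 8 = c ∧ p ≡ a [MOD M] ∧
    (∀ n ∈ N, orderOf (n : ZMod p) = p - 1) ∧ SqOrRoot N₂ p)

theorem gcd_left_dvd {n : ℤ} {p : ℕ} (hp : p.Prime) (h : jacobiSym n p = -1) : ¬ p ∣ n.natAbs := by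
  intro hd
  have h2 : jacobiSym n p = 0 := by
    rw [jacobiSym.eq_zero_iff]
    refine ⟨hp.ne_zero, ?_⟩
    intro h3
    have h4 : p ∣ Int.gcd n p := Nat.dvd_gcd hd (by simp)
    rw [h3] at h4
    exact hp.one_lt.ne' (Nat.dvd_one.1 h4)
  rw [h2] at h
  norm_num at h

open Classical in
theorem mem_Gd {O : Obj} {x p : ℕ} :
    p ∈ Gd O x ↔ p ∈ Icc 1 x ∧ p.Prime ∧ p ∈ O.C ∧ SqOrRoot O.N p := by
  unfold Gd
  exact mem_filter

theorem ext_core {U : Finset ℕ} (hU : Univ U) (c : ℕ) (hc : c = 1 ∨ c = 3 ∨ c = 5 ∨ c = 7)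
    (N N₂ : Finset ℤ) (hN : ∀ n ∈ N, Out U n) (hN₂ : ∀ n ∈ N₂, Out U n) (hS : Star U c N)
    (M a : ℕ) (hM0 : M ≠ 0) (hMU : ∀ u ∈ U, ¬ u ∣ M) (haM : a.Coprime M)
    (haq : ∀ q ∈ M.primeFactors, a % q ≠ 1) (hMN : ∀ n ∈ N, ∀ q ∈ M.primeFactors, ¬ q ∣ n.natAbs) :
    ∃ δ : ℝ, 0 < δ ∧ ∃ᶠ x : ℕ in atTop, δ * (x / (Real.log x) ^ 2) < ((Ex c N N₂ M a x).card : ℝ) := by
  classical
  obtain ⟨V, A, m, hVU, hVp, hmV, hAm, h24, hA8, hbase⟩ := hU.2.2.2 c hc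
  obtain ⟨hm0, hAcop, hAq⟩ := hAm
  -- the base prime
  obtain ⟨p₁, hp₁U, hp₁, hp₁A⟩ := Nat.forall_exists_prime_gt_and_modEq (U.sup id) hm0 hAcop
  have hp₁u : ∀ u ∈ U, u < p₁ := fun u hu => lt_of_le_of_lt (le_sup (f := id) hu) hp₁U
  obtain ⟨ε, hε⟩ : ∃ ε : ℕ → ℤ, ε = (fun u : ℕ => if jacobiSym ((u : ℕ) : ℤ) p₁ = -1 then (-1 : ℤ) else 1) :=
    ⟨_, rfl⟩
  have hε1 : ∀ u, ε u = 1 ∨ ε u = -1 := by
    intro u
    rw [hε]
    simp only
    split_ifs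
    · exact Or.inr rfl
    · exact Or.inl rfl
  have hεU : ∀ u ∈ U, ε u = jacobiSym (u : ℤ) p₁ := by
    intro u hu
    have h1 : jacobiSym (u : ℤ) p₁ = 1 ∨ jacobiSym (u : ℤ) p₁ = -1 := by
      apply jacobiSym.eq_one_or_neg_one
      rw [Int.gcd_natCast_natCast]
      exact (Nat.coprime_primes (hU.2.2.1 u hu) hp₁).2 (hp₁u u hu).ne
    rw [hε]
    simp only
    rcases h1 with h1 | h1
    · rw [if_neg (by rw [h1]; norm_num), h1]
    · rw [if_pos h1, h1]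
  obtain ⟨p₀, hp₀, hp₀8, hp₀U, hJ⟩ := hS ε hε1
  have hp₁8 : p₁ % 8 = c := by
    have h8 : 8 ∣ m := (by norm_num : 8 ∣ 24).trans h24
    have h9 : p₁ % 8 = A % 8 := hp₁A.of_dvd h8
    rw [h9, hA8]
  have hp₁o := odd_of_mod8 hc hp₁8
  have hp₀o := odd_of_mod8 hc hp₀8
  -- the remaining primes
  set Q : Finset ℕ := N.biUnion (fun n => n.natAbs.primeFactors) with hQ
  have hQm : ∀ q ∈ Q, q.Prime ∧ ∃ n ∈ N, q ∣ n.natAbs := by
    intro q hq
    rw [hQ, mem_biUnion] at hq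
    obtain ⟨n, hn, hq⟩ := hq
    exact ⟨Nat.prime_of_mem_primeFactors hq, n, hn, Nat.dvd_of_mem_primeFactors hq⟩
  set G : Finset ℕ := (U ∪ Q) \ (m.primeFactors ∪ M.primeFactors) with hG
  have hGm : ∀ q ∈ G, q.Prime ∧ ¬ q ∣ m ∧ ¬ q ∣ M ∧ 5 ≤ q ∧ p₀.Coprime q := by
    intro q hq
    rw [hG, Finset.mem_sdiff, mem_union, mem_union] at hq
    obtain ⟨hq1, hq2⟩ := hq
    push Not at hq2
    have hqp : q.Prime := by
      rcases hq1 with h | h
      · exact hU.2.2.1 q h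
      · exact (hQm q h).1
    have hqm : ¬ q ∣ m := fun h => hq2.1 (Nat.mem_primeFactors.2 ⟨hqp, h, hm0⟩)
    have hqM : ¬ q ∣ M := fun h => hq2.2 (Nat.mem_primeFactors.2 ⟨hqp, h, hM0⟩)
    have h5 : 5 ≤ q := by
      by_contra hcon
      have h2 := hqp.two_le
      have h3 : q = 2 ∨ q = 3 ∨ q = 4 := by omega
      rcases h3 with h | h | h
      · rw [h] at hqm; exact hqm ((by norm_num : 2 ∣ 24).trans h24)
      · rw [h] at hqm; exact hqm ((by norm_num : 3 ∣ 24).trans h24)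
      · rw [h] at hqp; exact absurd hqp (by norm_num)
    refine ⟨hqp, hqm, hqM, h5, ?_⟩
    rw [Nat.coprime_primes hp₀ hqp]
    rintro rfl
    rcases hq1 with h | h
    · have h6 := hp₀U p₀ h (by omega)
      have h7 : jacobiSym (p₀ : ℤ) p₀ = 0 := by
        rw [jacobiSym.eq_zero_iff]
        refine ⟨hp₀.ne_zero, ?_⟩
        rw [Int.gcd_natCast_natCast, Nat.gcd_self]
        exact hp₀.one_lt.ne'
      rw [h7] at h6
      rcases hε1 p₀ with h8 | h8 <;> rw [h8] at h6 <;> norm_num at h6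
    · obtain ⟨-, n, hn, hqn⟩ := hQm p₀ h
      exact gcd_left_dvd hp₀ (hJ n hn) hqn
  have hcls : ∀ q, ∃ u : ℕ, q ∈ G → u.Coprime q ∧ u % q ≠ 1 ∧ jacobiSym u q = jacobiSym p₀ q := by
    intro q
    by_cases hq : q ∈ G
    · obtain ⟨h1, -, -, h4, h5⟩ := hGm q hq
      obtain ⟨u, hu⟩ := exists_class q h1 h4 p₀ h5
      exact ⟨u, fun _ => hu⟩
    · exact ⟨0, fun h => absurd h hq⟩
  choose g hg using hcls
  obtain ⟨aG, haG⟩ := Nat.chineseRemainderOfFinset g (fun q => q) G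
    (fun q hq => (hGm q hq).1.ne_zero) (fun q hq r hr hqr =>
      (Nat.coprime_primes (hGm q hq).1 (hGm r hr).1).2 hqr)
  set PG : ℕ := ∏ q ∈ G, q with hPG
  have hPG0 : PG ≠ 0 := by
    rw [hPG, prod_ne_zero_iff]
    exact fun q hq => (hGm q hq).1.ne_zero
  have hPGd : ∀ q : ℕ, q.Prime → q ∣ PG → q ∈ G := by
    intro q hq hqM
    obtain ⟨r, hr, hqr⟩ := (Prime.dvd_finsetProd_iff hq.prime _).1 hqM
    rw [(Nat.prime_dvd_prime_iff_eq hq (hGm r hr).1).1 hqr]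
    exact hr
  have hmM : m.Coprime M := by
    apply Nat.coprime_of_dvd
    intro q hq h1 h2
    exact hMU q (hVU (hmV (Nat.mem_primeFactors.2 ⟨hq, h1, hm0⟩))) h2
  have hmMG : (m * M).Coprime PG := by
    apply Nat.coprime_of_dvd
    intro q hq h1 h2
    obtain ⟨-, h3, h4, -⟩ := hGm q (hPGd q hq h2)
    rcases hq.dvd_mul.1 h1 with h | h
    · exact h3 h
    · exact h4 h
  obtain ⟨A₁, hA₁m, hA₁M⟩ := Nat.chineseRemainder hmM A a
  obtain ⟨A', hA'm, hA'G⟩ := Nat.chineseRemainder hmMG A₁ aG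
  have hA'A : A' ≡ A [MOD m] := (hA'm.of_dvd (Dvd.intro _ rfl)).trans hA₁m
  have hA'a : A' ≡ a [MOD M] := (hA'm.of_dvd (Dvd.intro_left _ rfl)).trans hA₁M
  have hA'g : ∀ q ∈ G, A' ≡ g q [MOD q] := fun q hq =>
    (hA'G.of_dvd (dvd_prod_of_mem _ hq)).trans (haG q hq)
  have hallow : Allowed A' (m * M * PG) := by
    refine ⟨mul_ne_zero (mul_ne_zero hm0 hM0) hPG0, ?_, ?_⟩
    · apply Nat.Coprime.mul_right
      · apply Nat.Coprime.mul_right
        · rw [Nat.Coprime, hA'A.gcd_eq]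
          exact hAcop
        · rw [Nat.Coprime, hA'a.gcd_eq]
          exact haM
      · rw [hPG]
        apply Nat.Coprime.prod_right
        intro q hq
        rw [Nat.Coprime, (hA'g q hq).gcd_eq]
        exact (hg q hq).1
    · intro q hq hq3
      have hqp := Nat.prime_of_mem_primeFactors hq
      have hqd := Nat.dvd_of_mem_primeFactors hq
      rcases hqp.dvd_mul.1 hqd with h | h
      · rcases hqp.dvd_mul.1 h with h | h
        · have h1 : A' % q = A % q := hA'A.of_dvd h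
          rw [h1]
          exact hAq q (Nat.mem_primeFactors.2 ⟨hqp, h, hm0⟩) hq3
        · have h1 : A' % q = a % q := hA'a.of_dvd h
          rw [h1]
          exact haq q (Nat.mem_primeFactors.2 ⟨hqp, h, hM0⟩)
      · have hqG := hPGd q hqp h
        have h1 : A' % q = g q % q := hA'g q hqG
        rw [h1]
        exact (hg q hqG).2.1
  have hpC : ∀ p : ℕ, p.Prime → p ≡ A' [MOD (m * M * PG)] → p % 8 = c ∧ p ≡ a [MOD M] ∧
      ∀ n ∈ N, jacobiSym n p = -1 := by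
    intro p hp hpA
    have hpm : p ≡ A [MOD m] := (hpA.of_dvd ⟨M * PG, by ring⟩).trans hA'A
    have hpM : p ≡ a [MOD M] := (hpA.of_dvd ⟨m * PG, by ring⟩).trans hA'a
    have hpg : ∀ q ∈ G, p ≡ g q [MOD q] := fun q hq =>
      (hpA.of_dvd ((dvd_prod_of_mem (fun q => q) hq).mul_left _)).trans (hA'g q hq)
    have hp8 : p % 8 = c := by
      have h8 : 8 ∣ m := (by norm_num : 8 ∣ 24).trans h24
      have h9 : p % 8 = A % 8 := hpm.of_dvd h8
      rw [h9, hA8]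
    refine ⟨hp8, hpM, fun n hn => ?_⟩
    have hpo := odd_of_mod8 hc hp8
    rw [← hJ n hn]
    apply jac_same n (hN n hn).1 p p₀ hpo hp₀o (by rw [hp8, hp₀8])
    intro l hl hl2 hln
    by_cases hlM : l ∣ M
    · exact absurd hln (hMN n hn l (Nat.mem_primeFactors.2 ⟨hl, hlM, hM0⟩))
    · by_cases hlm : l ∣ m
      · have hlU : l ∈ U := hVU (hmV (Nat.mem_primeFactors.2 ⟨hl, hlm, hm0⟩))
        have h1 : p ≡ p₁ [MOD l] := (hpm.of_dvd hlm).trans (hp₁A.of_dvd hlm).symm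
        rw [jac_of_modEq h1]
        apply recip_same l (hl.odd_of_ne_two hl2) p₁ p₀ hp₁o hp₀o (by omega)
        rw [hp₀U l hlU hl2, hεU l hlU]
      · have hlQ : l ∈ Q := by
          rw [hQ, mem_biUnion]
          exact ⟨n, hn, Nat.mem_primeFactors.2 ⟨hl, hln, Int.natAbs_ne_zero.2 (hN n hn).1⟩⟩
        have hlG : l ∈ G := by
          rw [hG, Finset.mem_sdiff, mem_union, mem_union, Nat.mem_primeFactors, Nat.mem_primeFactors]
          exact ⟨Or.inr hlQ, by tauto⟩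
        rw [jac_of_modEq (hpg l hlG)]
        exact (hg l hlG).2.2
  -- the object
  have hns := hbase ⟨N ∪ N₂, {p | p % 8 = c ∧ p ≡ a [MOD M] ∧ ∀ n ∈ N, jacobiSym n p = -1}⟩ (by
      intro n hn
      have hn' : n ∈ N ∪ N₂ := hn
      rw [mem_union] at hn'
      have h1 : Out U n := by
        rcases hn' with h | h
        · exact hN n h
        · exact hN₂ n h
      obtain ⟨h2, l, h3, h4, h5⟩ := h1
      exact ⟨h2, l, h3, fun h => h4 (hVU h), h5⟩)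
    ⟨A', m * M * PG, hallow, ⟨M * PG, by ring⟩, hA'A, hpC⟩
  unfold Obj.Stuck at hns
  push Not at hns
  obtain ⟨δ, hδ, h⟩ := hns
  refine ⟨δ, hδ, ?_⟩
  have hfr : ∃ᶠ x : ℕ in atTop, δ * (x / (Real.log x) ^ 2) <
      ((Gd ⟨N ∪ N₂, {p | p % 8 = c ∧ p ≡ a [MOD M] ∧ ∀ n ∈ N, jacobiSym n p = -1}⟩ x).card : ℝ) := by
    rw [Filter.frequently_iff]
    intro S hS
    by_contra hcon
    push Not at hcon
    apply h
    filter_upwards [hS] with x hx
    exact not_lt.2 (hcon x hx)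
  refine hfr.mono ?_
  intro x hx
  refine hx.trans_le ?_
  have hsub : Gd ⟨N ∪ N₂, {p | p % 8 = c ∧ p ≡ a [MOD M] ∧ ∀ n ∈ N, jacobiSym n p = -1}⟩ x ⊆
      Ex c N N₂ M a x := by
    intro p hp
    rw [mem_Gd] at hp
    obtain ⟨hp1, hpp, ⟨hp8, hpa, hpN⟩, hps⟩ := hp
    unfold Ex
    rw [mem_filter]
    refine ⟨hp1, hpp, hp8, hpa, fun n hn => ?_, fun n hn => hps n (mem_union_right _ hn)⟩
    rcases hps n (mem_union_left _ hn) with h1 | h1
    · exact absurd h1 (ZMod.nonsquare_of_jacobiSym_eq_neg_one (hpN n hn))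
    · exact h1
  exact_mod_cast card_le_card hsub

end Pool.Agent.H482.RG
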