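import Mathlib
import Pool.Graph.R_pool_sql_team_18ca10b6.H4.Rado.BF

/-!
Back and forth; the Rado graph and the generic oriented graph.
-/

set_option autoImplicit false

open Finset

namespace Pool.Agent.H482.RG

/-- finite partial isomorphisms -/
def PI {α β T : Type} (r : α → α → T) (s : β → β → T) (f : Finset (α × β)) : Prop :=
  ∀ p ∈ f, ∀ q ∈ f, (p.1 = q.1 ↔ p.2 = q.2) ∧ (p.1 ≠ q.1 → r p.1 q.1 = s p.2 q.2)

theorem PI.swap {α β T : Type} {r : α → α → T} {s : β → β → T} {f : Finset (α × β)}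
    [DecidableEq α] [DecidableEq β] (h : PI r s f) : PI s r (f.image Prod.swap) := by
  intro p hp q hq
  obtain ⟨p', hp', rfl⟩ := mem_image.1 hp
  obtain ⟨q', hq', rfl⟩ := mem_image.1 hq
  obtain ⟨h1, h2⟩ := h p' hp' q' hq'
  refine ⟨h1.symm, fun hne => ?_⟩
  have h3 : p'.1 ≠ q'.1 := fun h' => hne (h1.1 h')
  exact (h2 h3).symm

theorem fwd {α β T : Type} [DecidableEq α] [DecidableEq β] (r : α → α → T) (s : β → β → T)
    (σ : T → T) (A : T → Prop) (hr : ∀ x y, x ≠ y → r y x = σ (r x y))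
    (hs : ∀ x y, x ≠ y → s y x = σ (s x y)) (hA : ∀ x y, x ≠ y → A (r x y))
    (es : ∀ (F : Finset β) (g : β → T), (∀ w ∈ F, A (g w)) → ∃ v, v ∉ F ∧ ∀ w ∈ F, s v w = g w)
    (f : Finset (α × β)) (hf : PI r s f) (a : α) : ∃ b, PI r s (insert (a, b) f) := by
  classical
  by_cases ha : ∃ b, (a, b) ∈ f
  · obtain ⟨b, hb⟩ := ha
    refine ⟨b, ?_⟩
    rw [insert_eq_of_mem hb]
    exact hf
  · push Not at ha
    have hne : ∀ p ∈ f, a ≠ p.1 := by
      rintro p hp rfl
      exact ha p.2 hp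
    have hex : ∀ w, ∃ t : T, ∀ p ∈ f, p.2 = w → t = r a p.1 := by
      intro w
      by_cases hw : ∃ p ∈ f, p.2 = w
      · obtain ⟨p, hp, rfl⟩ := hw
        refine ⟨r a p.1, fun q hq hqp => ?_⟩
        rw [(hf q hq p hp).1.2 hqp]
      · push Not at hw
        exact ⟨r a a, fun p hp hpw => absurd hpw (hw p hp)⟩
    choose g hg using hex
    obtain ⟨b, hb, hbw⟩ := es (f.image Prod.snd) g (by
      intro w hw
      obtain ⟨p, hp, rfl⟩ := mem_image.1 hw
      rw [hg p.2 p hp rfl]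
      exact hA _ _ (hne p hp))
    have hb2 : ∀ p ∈ f, b ≠ p.2 := by
      rintro p hp rfl
      exact hb (mem_image_of_mem _ hp)
    have hbr : ∀ p ∈ f, s b p.2 = r a p.1 := by
      intro p hp
      rw [hbw p.2 (mem_image_of_mem _ hp), hg p.2 p hp rfl]
    refine ⟨b, ?_⟩
    intro p hp q hq
    rw [mem_insert] at hp hq
    rcases hp with rfl | hp <;> rcases hq with rfl | hq
    · exact ⟨by simp, fun h => absurd rfl h⟩
    · refine ⟨⟨fun h => absurd h (hne q hq), fun h => absurd h (hb2 q hq)⟩, fun _ => ?_⟩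
      exact (hbr q hq).symm
    · refine ⟨⟨fun h => absurd h.symm (hne p hp), fun h => absurd h.symm (hb2 p hp)⟩, fun _ => ?_⟩
      rw [hr _ _ (hne p hp), hs _ _ (hb2 p hp), hbr p hp]
    · exact hf p hp q hq

/-- back and forth -/
theorem bf {α β T : Type} [Countable α] [Countable β] (r : α → α → T) (s : β → β → T)
    (σ : T → T) (A : T → Prop) (hr : ∀ x y, x ≠ y → r y x = σ (r x y))
    (hs : ∀ x y, x ≠ y → s y x = σ (s x y)) (hAr : ∀ x y, x ≠ y → A (r x y))
    (hAs : ∀ x y, x ≠ y → A (s x y))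
    (er : ∀ (F : Finset α) (g : α → T), (∀ w ∈ F, A (g w)) → ∃ v, v ∉ F ∧ ∀ w ∈ F, r v w = g w)
    (es : ∀ (F : Finset β) (g : β → T), (∀ w ∈ F, A (g w)) → ∃ v, v ∉ F ∧ ∀ w ∈ F, s v w = g w) :
    ∃ e : α ≃ β, ∀ x y, x ≠ y → r x y = s (e x) (e y) := by
  classical
  obtain ⟨e, -, he⟩ := Pool.Agent.H4.Rado.backforth (PI r s)
    (fun f hf p hp q hq => (hf p hp q hq).1)
    (fun f hf a => fwd r s σ A hr hs hAr es f hf a)
    (fun f hf b => by
      obtain ⟨a, ha⟩ := fwd s r σ A hs hr hAs er (f.image Prod.swap) hf.swap b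
      refine ⟨a, ?_⟩
      have h := ha.swap
      rw [image_insert, image_image] at h
      have e1 : f.image (Prod.swap ∘ Prod.swap) = f := by
        rw [Prod.swap_swap_eq, image_id]
      rw [e1] at h
      exact h) ∅ (by intro p hp; simp at hp)
  refine ⟨e, fun x y hxy => ?_⟩
  obtain ⟨f, hf, h1, h2⟩ := he x y
  exact (hf _ h1 _ h2).2 hxy

/-- integers with prescribed digits -/
theorem digits (b : ℕ) (hb : 2 ≤ b) (N : ℕ) : ∀ (g : ℕ → ℕ), (∀ k, g k < b) → ∀ t : ℕ,
    ∃ n, t ≤ n ∧ ∀ k < N, n / b ^ k % b = g k := by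
  induction N with
  | zero => intro g _ t; exact ⟨t, le_rfl, fun k hk => by omega⟩
  | succ N ih =>
    intro g hg t
    obtain ⟨n, hn, h⟩ := ih (fun k => g (k + 1)) (fun k => hg _) t
    refine ⟨b * n + g 0, ?_, ?_⟩
    · nlinarith
    · intro k hk
      rcases Nat.eq_zero_or_pos k with rfl | hk0
      · rw [pow_zero, Nat.div_one, Nat.mul_add_mod, Nat.mod_eq_of_lt (hg 0)]
      · obtain ⟨j, rfl⟩ : ∃ j, k = j + 1 := ⟨k - 1, by omega⟩
        have h1 := h j (by omega)
        rw [pow_succ', ← Nat.div_div_eq_div_mul, Nat.mul_add_div (by omega),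
          Nat.div_eq_of_lt (hg 0), add_zero]
        exact h1

/-- The Rado graph: `i < j` are joined if the `i`-th binary digit of `j` is `1`. -/
def rado : SimpleGraph ℕ where
  Adj i j := (i < j ∧ j.testBit i = true) ∨ (j < i ∧ i.testBit j = true)
  symm := ⟨fun _ _ h => h.symm⟩
  loopless := ⟨fun _ h => by
    rcases h with h | h
    · exact lt_irrefl _ h.1
    · exact lt_irrefl _ h.1⟩

theorem testBit_digit (n k : ℕ) : n.testBit k = true ↔ n / 2 ^ k % 2 = 1 := by
  rw [Nat.testBit_eq_decide_div_mod_eq, decide_eq_true_eq]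

theorem rado_ext (F : Finset ℕ) (g : ℕ → Prop) : ∃ v, v ∉ F ∧ ∀ w ∈ F, rado.Adj v w = g w := by
  classical
  obtain ⟨n, hn, h⟩ := digits 2 le_rfl (F.sup id + 1) (fun k => if g k then 1 else 0)
    (fun k => by split_ifs <;> norm_num) (F.sup id + 1)
  have hlt : ∀ w ∈ F, w < n := fun w hw => by
    have : w ≤ F.sup id := le_sup (f := id) hw
    omega
  refine ⟨n, fun hnF => lt_irrefl _ (hlt n hnF), fun w hw => propext ?_⟩
  have h1 := hlt w hw
  have h2 := h w (by
    have : w ≤ F.sup id := le_sup (f := id) hw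
    omega)
  change ((n < w ∧ w.testBit n = true) ∨ (w < n ∧ n.testBit w = true)) ↔ g w
  rw [testBit_digit n w, h2]
  constructor
  · rintro (h3 | ⟨-, h3⟩)
    · omega
    · by_contra hg
      rw [if_neg hg] at h3
      norm_num at h3
  · intro hg
    right
    rw [if_pos hg]
    exact ⟨h1, rfl⟩

/-- The generic oriented graph: for `i < j` there is an arc from `i` to `j` if the `i`-th ternary
digit of `j` is `1`, and an arc from `j` to `i` if this digit is `2`. -/
def arc (i j : ℕ) : Prop := (i < j ∧ j / 3 ^ i % 3 = 1) ∨ (j < i ∧ i / 3 ^ j % 3 = 2)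

theorem arc_asymm (i j : ℕ) (h : arc i j) : ¬ arc j i := by
  unfold arc at *
  rintro (⟨h1, h2⟩ | ⟨h1, h2⟩) <;> rcases h with ⟨h3, h4⟩ | ⟨h3, h4⟩ <;> omega

theorem arc_ext (F : Finset ℕ) (g : ℕ → Prop × Prop) (hg : ∀ w ∈ F, ¬ ((g w).1 ∧ (g w).2)) :
    ∃ v, v ∉ F ∧ ∀ w ∈ F, (arc v w, arc w v) = g w := by
  classical
  obtain ⟨n, hn, h⟩ := digits 3 (by norm_num) (F.sup id + 1)
    (fun k => if (g k).1 then 2 else if (g k).2 then 1 else 0)
    (fun k => by split_ifs <;> norm_num) (F.sup id + 1)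
  have hlt : ∀ w ∈ F, w < n := fun w hw => by
    have : w ≤ F.sup id := le_sup (f := id) hw
    omega
  refine ⟨n, fun hnF => lt_irrefl _ (hlt n hnF), fun w hw => ?_⟩
  have h1 := hlt w hw
  have h2 := h w (by
    have : w ≤ F.sup id := le_sup (f := id) hw
    omega)
  have h3 := hg w hw
  have e1 : arc n w ↔ (g w).1 := by
    unfold arc
    rw [h2]
    constructor
    · rintro (h4 | ⟨-, h4⟩)
      · omega
      · by_contra hc
        rw [if_neg hc] at h4
        (split_ifs at h4; all_goals omega)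
    · intro h4
      right
      rw [if_pos h4]
      exact ⟨h1, rfl⟩
  have e2 : arc w n ↔ (g w).2 := by
    unfold arc
    rw [h2]
    constructor
    · rintro (⟨-, h4⟩ | h4)
      · by_contra hc
        (split_ifs at h4; all_goals omega)
      · omega
    · intro h4
      left
      have h5 : ¬ (g w).1 := fun h' => h3 ⟨h', h4⟩
      rw [if_neg h5, if_pos h4]
      exact ⟨h1, rfl⟩
  exact Prod.ext (propext e1) (propext e2)

end Pool.Agent.H482.RG
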