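import Mathlib
import Pool.Agent.H482.MR.M11
import Pool.Agent.H482.RG.R4
import Pool.Agent.H482.RG.R5

/-!
The extension properties of the graphs of primes.
-/

set_option autoImplicit false

open Finset Filter

namespace Pool.Agent.H482.RG

open Pool.Agent.H482.MR (Gq Gq_card Gq_prop recip_one recip_three)
open Pool.Agent.Y855 (order_iff')

theorem jac_of_root {q : ℕ} (hq : q.Prime) (h3 : 2 < q) (a : ℕ) (h : orderOf (a : ZMod q) = q - 1) :
    jacobiSym a q = -1 := by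
  have hfact : Fact q.Prime := ⟨hq⟩
  have hnd : ¬ (q : ℤ) ∣ (a : ℤ) := by
    intro hd
    have h1 : (a : ZMod q) = 0 := by
      rw [ZMod.natCast_eq_zero_iff]
      exact_mod_cast hd
    rw [h1, orderOf_zero] at h
    omega
  have h1 := (order_iff' (a : ℤ) q h3 hnd).1 (by rw [Int.cast_natCast]; exact h)
  rw [← jacobiSym.legendreSym.to_jacobiSym]
  exact h1.1

theorem root_of_jac {q p : ℕ} (h : jacobiSym q p = -1)
    (h' : IsSquare (q : ZMod p) ∨ orderOf (q : ZMod p) = p - 1) : orderOf (q : ZMod p) = p - 1 := by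
  rcases h' with h1 | h1
  · exfalso
    have h2 := ZMod.nonsquare_of_jacobiSym_eq_neg_one h
    rw [Int.cast_natCast] at h2
    exact h2 h1
  · exact h1

theorem cast_of_modEq {p q u : ℕ} (h : p ≡ u [MOD q]) : (p : ZMod q) = u :=
  (ZMod.natCast_eq_natCast_iff _ _ _).2 h

/-- the vertices -/
def Vx (U : Finset ℕ) (N : Finset ℤ) : Set ℕ :=
  {p | p.Prime ∧ p ∉ U ∧ ∀ n ∈ N, orderOf (n : ZMod p) = p - 1}

theorem five_le {U : Finset ℕ} (hU : Univ U) {q : ℕ} (hq : q.Prime) (hqU : q ∉ U) : 5 ≤ q := by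
  by_contra hcon
  have h2 := hq.two_le
  have h3 : q = 2 ∨ q = 3 ∨ q = 4 := by omega
  rcases h3 with h | h | h
  · rw [h] at hqU; exact hqU hU.1
  · rw [h] at hqU; exact hqU hU.2.1
  · rw [h] at hq; exact absurd hq (by norm_num)

theorem Vx_dvd {U : Finset ℕ} (hU : Univ U) {N : Finset ℤ} {p : ℕ} (hp : p ∈ Vx U N) :
    p.Prime ∧ p ∉ U ∧ ∀ n ∈ N, ¬ p ∣ n.natAbs := by
  refine ⟨hp.1, hp.2.1, fun n hn hd => ?_⟩
  have h1 := hp.2.2 n hn
  have h2 : (n : ZMod p) = 0 := (ZMod.intCast_zmod_eq_zero_iff_dvd _ _).2 (Int.natCast_dvd.2 hd)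
  have hfact : Fact p.Prime := ⟨hp.1⟩
  rw [h2, orderOf_zero] at h1
  have := five_le hU hp.1 hp.2.1
  omega

theorem ext_new {U : Finset ℕ} (hU : Univ U) (c : ℕ) (hc : c = 1 ∨ c = 3 ∨ c = 5 ∨ c = 7)
    (N : Finset ℤ) (hN : ∀ n ∈ N, Out U n) (hS : Star U c N) (F : Finset ℕ)
    (hF : ∀ q ∈ F, q.Prime ∧ q ∉ U ∧ ∀ n ∈ N, ¬ q ∣ n.natAbs) (f : ℕ → ℕ)
    (hf : ∀ q ∈ F, (f q).Coprime q ∧ f q % q ≠ 1) (W : Finset ℕ) :
    ∃ p, p ∉ W ∧ p.Prime ∧ p % 8 = c ∧ (∀ n ∈ N, orderOf (n : ZMod p) = p - 1) ∧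
    ∀ q ∈ F, p ≡ f q [MOD q] ∧ (IsSquare (q : ZMod p) ∨ orderOf (q : ZMod p) = p - 1) := by
  classical
  obtain ⟨a, ha⟩ := Nat.chineseRemainderOfFinset f (fun q => q) F
    (fun q hq => (hF q hq).1.ne_zero) (fun q hq r hr hqr =>
      (Nat.coprime_primes (hF q hq).1 (hF r hr).1).2 hqr)
  set M : ℕ := ∏ q ∈ F, q with hM
  have hM0 : M ≠ 0 := by
    rw [hM, prod_ne_zero_iff]
    exact fun q hq => (hF q hq).1.ne_zero
  have hMd : ∀ q : ℕ, q.Prime → q ∣ M → q ∈ F := by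
    intro q hq hqM
    obtain ⟨r, hr, hqr⟩ := (Prime.dvd_finsetProd_iff hq.prime _).1 hqM
    rw [(Nat.prime_dvd_prime_iff_eq hq (hF r hr).1).1 hqr]
    exact hr
  obtain ⟨δ, hδ, hfr⟩ := ext_core hU c hc N (F.image (fun q : ℕ => (q : ℤ))) hN (by
      intro n hn
      obtain ⟨q, hq, rfl⟩ := mem_image.1 hn
      refine ⟨by exact_mod_cast (hF q hq).1.ne_zero, q, (hF q hq).1, (hF q hq).2.1, ?_⟩
      rw [Int.natAbs_natCast]) hS M a hM0 (by
      intro u hu hdvd
      exact (hF u (hMd u (hU.2.2.1 u hu) hdvd)).2.1 hu) (by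
      rw [hM]
      apply Nat.Coprime.prod_right
      intro q hq
      rw [Nat.Coprime, (ha q hq).gcd_eq]
      exact (hf q hq).1) (by
      intro q hq
      have h1 := hMd q (Nat.prime_of_mem_primeFactors hq) (Nat.dvd_of_mem_primeFactors hq)
      have h2 : a % q = f q % q := ha q h1
      rw [h2]
      exact (hf q h1).2) (by
      intro n hn q hq
      exact (hF q (hMd q (Nat.prime_of_mem_primeFactors hq) (Nat.dvd_of_mem_primeFactors hq))).2.2 n hn)
  have hev := ev_saving W.card 0 δ (Nat.cast_nonneg _) le_rfl hδ 1 le_rfl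
  obtain ⟨x, h1, h2⟩ := (hfr.and_eventually hev).exists
  have h3 : (W.card : ℝ) < ((Ex c N (F.image (fun q : ℕ => (q : ℤ))) M a x).card : ℝ) := by linarith
  have h4 : W.card < (Ex c N (F.image (fun q : ℕ => (q : ℤ))) M a x).card := by exact_mod_cast h3
  obtain ⟨p, hp, hpW⟩ := exists_mem_notMem_of_card_lt_card h4
  unfold Ex at hp
  rw [mem_filter] at hp
  obtain ⟨-, hpp, hp8, hpa, hpN, hps⟩ := hp
  refine ⟨p, hpW, hpp, hp8, hpN, fun q hq => ⟨?_, ?_⟩⟩
  · exact (hpa.of_dvd (dvd_prod_of_mem _ hq)).trans (ha q hq)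
  · have h5 := hps (q : ℤ) (mem_image_of_mem _ hq)
    rw [Int.cast_natCast] at h5
    exact h5

theorem Gq_exists (q : ℕ) (hq : q.Prime) (h5 : 5 ≤ q) : ∃ g : ℕ, g.Coprime q ∧ g % q ≠ 1 ∧
    orderOf (g : ZMod q) = q - 1 := by
  have h1 := Gq_card q hq
  have h2 : 0 < Nat.totient (q - 1) := Nat.totient_pos.2 (by omega)
  obtain ⟨g, hg⟩ := card_pos.1 (h2.trans_le h1)
  obtain ⟨h3, h4, h6⟩ := Gq_prop hq (by omega) hg
  refine ⟨g, h4, h6 q (by rw [Nat.Prime.primeFactors hq, mem_singleton]), ?_⟩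
  unfold Gq at hg
  exact (mem_filter.1 hg).2

theorem ext_one {U : Finset ℕ} (hU : Univ U) {N : Finset ℤ} (c : ℕ) (hc : c = 1 ∨ c = 5)
    (hN : ∀ n ∈ N, Out U n) (hS : Star U c N) (F : Finset ℕ)
    (hF : ∀ q ∈ F, q ∈ Vx U N) (g : ℕ → Prop) : ∃ p ∈ Vx U N, p ∉ F ∧ p % 4 = 1 ∧ ∀ q ∈ F,
      ((orderOf (p : ZMod q) = q - 1 ∧ orderOf (q : ZMod p) = p - 1) ↔ g q) := by
  classical
  have hex : ∀ q, ∃ u : ℕ, q ∈ F → u.Coprime q ∧ u % q ≠ 1 ∧
      (g q → orderOf (u : ZMod q) = q - 1) ∧ (¬ g q → jacobiSym u q = 1) := by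
    intro q
    by_cases hq : q ∈ F
    · have hqV := Vx_dvd hU (hF q hq)
      have h5 := five_le hU hqV.1 hqV.2.1
      by_cases hg : g q
      · obtain ⟨u, hu1, hu2, hu3⟩ := Gq_exists q hqV.1 h5
        exact ⟨u, fun _ => ⟨hu1, hu2, fun _ => hu3, fun h => absurd hg h⟩⟩
      · have hodd : Odd q := hqV.1.odd_of_ne_two (by omega)
        refine ⟨4, fun _ => ⟨?_, ?_, fun h => absurd h hg, fun _ => jacobiSym.at_four hodd⟩⟩
        · exact (Nat.Coprime.pow_left 2 (Nat.coprime_two_left.2 hodd) : Nat.Coprime (2 ^ 2) q)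
        · rw [Nat.mod_eq_of_lt (by omega)]
          norm_num
    · exact ⟨0, fun h => absurd h hq⟩
  choose f hf using hex
  obtain ⟨p, hpW, hpp, hp8, hpN, hpF⟩ := ext_new hU c (by omega) N hN hS F
    (fun q hq => Vx_dvd hU (hF q hq)) f (fun q hq => ⟨(hf q hq).1, (hf q hq).2.1⟩) (F ∪ U)
  have hp4 : p % 4 = 1 := by omega
  rw [mem_union] at hpW
  push Not at hpW
  refine ⟨p, ⟨hpp, hpW.2, hpN⟩, hpW.1, hp4, fun q hq => ?_⟩
  obtain ⟨h1, h2, h3, h4⟩ := hf q hq
  obtain ⟨h5, h6⟩ := hpF q hq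
  have hqV := Vx_dvd hU (hF q hq)
  have hq5 := five_le hU hqV.1 hqV.2.1
  have hp5 := five_le hU hpp hpW.2
  constructor
  · rintro ⟨h7, -⟩
    by_contra hg
    have h8 := jac_of_root hqV.1 (by omega) p h7
    rw [jac_of_modEq h5, h4 hg] at h8
    norm_num at h8
  · intro hg
    have h7 : orderOf (p : ZMod q) = q - 1 := by
      rw [cast_of_modEq h5]
      exact h3 hg
    refine ⟨h7, ?_⟩
    apply root_of_jac _ h6
    rw [← recip_one hpp hqV.1 (by omega) (by omega) (Or.inl hp4)]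
    exact jac_of_root hqV.1 (by omega) p h7

theorem ext_three {U : Finset ℕ} (hU : Univ U) {N : Finset ℤ} (c : ℕ) (hc : c = 3 ∨ c = 7)
    (hN : ∀ n ∈ N, Out U n) (hS : Star U c N) (F : Finset ℕ)
    (hF : ∀ q ∈ F, q ∈ Vx U N ∧ q % 4 = 3) (g : ℕ → Prop × Prop)
    (hg : ∀ q ∈ F, ¬ ((g q).1 ∧ (g q).2)) : ∃ p ∈ Vx U N, p % 4 = 3 ∧ p ∉ F ∧ ∀ q ∈ F,
      (orderOf (p : ZMod q) = q - 1, orderOf (q : ZMod p) = p - 1) = g q := by
  classical
  have hex : ∀ q, ∃ u : ℕ, q ∈ F → u.Coprime q ∧ u % q ≠ 1 ∧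
      ((g q).1 → orderOf (u : ZMod q) = q - 1) ∧ ((g q).2 → jacobiSym u q = 1) ∧
      (¬ (g q).1 → ¬ (g q).2 → jacobiSym u q = -1 ∧ orderOf (u : ZMod q) ≠ q - 1) := by
    intro q
    by_cases hq : q ∈ F
    · have hqV := Vx_dvd hU (hF q hq).1
      have h5 := five_le hU hqV.1 hqV.2.1
      have hodd : Odd q := hqV.1.odd_of_ne_two (by omega)
      have hgq := hg q hq
      by_cases h1 : (g q).1
      · obtain ⟨u, hu1, hu2, hu3⟩ := Gq_exists q hqV.1 h5
        exact ⟨u, fun _ => ⟨hu1, hu2, fun _ => hu3, fun h => absurd ⟨h1, h⟩ hgq,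
          fun h => absurd h1 h⟩⟩
      · by_cases h2 : (g q).2
        · refine ⟨4, fun _ => ⟨?_, ?_, fun h => absurd h h1, fun _ => jacobiSym.at_four hodd,
            fun _ h => absurd h2 h⟩⟩
          · exact (Nat.Coprime.pow_left 2 (Nat.coprime_two_left.2 hodd) : Nat.Coprime (2 ^ 2) q)
          · rw [Nat.mod_eq_of_lt (by omega)]
            norm_num
        · have hfact : Fact q.Prime := ⟨hqV.1⟩
          have hm1 : ((q - 1 : ℕ) : ZMod q) = -1 := by
            rw [Nat.cast_sub (by omega), ZMod.natCast_self]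
            simp
          refine ⟨q - 1, fun _ => ⟨?_, ?_, fun h => absurd h h1, fun h => absurd h h2,
            fun _ _ => ⟨?_, ?_⟩⟩⟩
          · rw [Nat.coprime_comm, Nat.Prime.coprime_iff_not_dvd hqV.1]
            intro h
            have := Nat.le_of_dvd (by omega) h
            omega
          · rw [Nat.mod_eq_of_lt (by omega)]
            omega
          · have h6 : jacobiSym ((q - 1 : ℕ) : ℤ) q = jacobiSym (-1) q := by
              apply jacobiSym.mod_left'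
              have h7 : ((q - 1 : ℕ) : ℤ) = -1 + (q : ℤ) * 1 := by omega
              rw [h7, Int.add_mul_emod_self_left]
            rw [h6, jacobiSym.at_neg_one hodd, ZMod.χ₄_nat_three_mod_four (hF q hq).2]
          · rw [hm1]
            have h6 : orderOf (-1 : ZMod q) ∣ 2 := by
              rw [orderOf_dvd_iff_pow_eq_one]
              norm_num
            have h7 := Nat.le_of_dvd (by norm_num) h6
            omega
    · exact ⟨0, fun h => absurd h hq⟩
  choose f hf using hex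
  obtain ⟨p, hpW, hpp, hp8, hpN, hpF⟩ := ext_new hU c (by omega) N hN hS F
    (fun q hq => Vx_dvd hU (hF q hq).1) f (fun q hq => ⟨(hf q hq).1, (hf q hq).2.1⟩) (F ∪ U)
  have hp4 : p % 4 = 3 := by omega
  rw [mem_union] at hpW
  push Not at hpW
  refine ⟨p, ⟨hpp, hpW.2, hpN⟩, hp4, hpW.1, fun q hq => ?_⟩
  obtain ⟨-, -, h3, h4, h4'⟩ := hf q hq
  obtain ⟨h5, h6⟩ := hpF q hq
  have hqV := Vx_dvd hU (hF q hq).1
  have hq5 := five_le hU hqV.1 hqV.2.1
  have hp5 := five_le hU hpp hpW.2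
  have hrec := recip_three hp4 (hF q hq).2
  have hgq := hg q hq
  have key : (orderOf (p : ZMod q) = q - 1 ↔ (g q).1) ∧ (orderOf (q : ZMod p) = p - 1 ↔ (g q).2) := by
    by_cases h1 : (g q).1
    · have h7 : orderOf (p : ZMod q) = q - 1 := by
        rw [cast_of_modEq h5]
        exact h3 h1
      have h8 := jac_of_root hqV.1 (by omega) p h7
      refine ⟨⟨fun _ => h1, fun _ => h7⟩, ⟨fun h => ?_, fun h => absurd ⟨h1, h⟩ hgq⟩⟩
      exfalso
      have h9 := jac_of_root hpp (by omega) q h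
      rw [h8, h9] at hrec
      norm_num at hrec
    · by_cases h2 : (g q).2
      · have h7 : jacobiSym p q = 1 := by
          rw [jac_of_modEq h5]
          exact h4 h2
        refine ⟨⟨fun h => ?_, fun h => absurd h h1⟩, ⟨fun _ => h2, fun _ => ?_⟩⟩
        · exfalso
          have h9 := jac_of_root hqV.1 (by omega) p h
          rw [h7] at h9
          norm_num at h9
        · apply root_of_jac _ h6
          rw [h7] at hrec
          omega
      · obtain ⟨h7, h8⟩ := h4' h1 h2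
        rw [← jac_of_modEq h5] at h7
        rw [← cast_of_modEq h5] at h8
        refine ⟨⟨fun h => absurd h h8, fun h => absurd h h1⟩, ⟨fun h => ?_, fun h => absurd h h2⟩⟩
        exfalso
        have h9 := jac_of_root hpp (by omega) q h
        rw [h7, h9] at hrec
        norm_num at hrec
  exact Prod.ext (propext key.1) (propext key.2)

end Pool.Agent.H482.RG
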