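import Mathlib
import Pool.Agent.H482.RG.R6

/-!
The isomorphisms, and the condition for a single integer.
-/

set_option autoImplicit false

open Finset Filter

namespace Pool.Agent.H482.RG

theorem exists_sign (q : ℕ) (hq : q.Prime) (hq2 : q ≠ 2) (s : ℤ) (hs : s = 1 ∨ s = -1) :
    ∃ v : ℕ, v.Coprime q ∧ jacobiSym v q = s := by
  have hfact : Fact q.Prime := ⟨hq⟩
  rcases hs with rfl | rfl
  · exact ⟨1, Nat.coprime_one_left _, by rw [Nat.cast_one, jacobiSym.one_left]⟩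
  · obtain ⟨y, hy⟩ := FiniteField.exists_nonsquare (F := ZMod q)
      (by rw [ZMod.ringChar_zmod_n]; exact hq2)
    refine ⟨y.val, ?_, ?_⟩
    · rw [Nat.coprime_comm, Nat.Prime.coprime_iff_not_dvd hq]
      intro h
      rw [← ZMod.natCast_eq_zero_iff, ZMod.natCast_zmod_val] at h
      apply hy
      rw [h]
      exact ⟨0, by simp⟩
    · rw [← jacobiSym.legendreSym.to_jacobiSym, legendreSym.eq_neg_one_iff]
      rw [Int.cast_natCast, ZMod.natCast_zmod_val]
      exact hy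

theorem exists_prime_classes (c : ℕ) (hc : c = 1 ∨ c = 3 ∨ c = 5 ∨ c = 7) (S : Finset ℕ)
    (hS : ∀ q ∈ S, q.Prime ∧ q ≠ 2) (v : ℕ → ℕ) (hv : ∀ q ∈ S, (v q).Coprime q) :
    ∃ p : ℕ, p.Prime ∧ p % 8 = c ∧ ∀ q ∈ S, p ≡ v q [MOD q] := by
  classical
  obtain ⟨a, ha⟩ := Nat.chineseRemainderOfFinset v (fun q => q) S
    (fun q hq => (hS q hq).1.ne_zero) (fun q hq r hr hqr =>
      (Nat.coprime_primes (hS q hq).1 (hS r hr).1).2 hqr)
  have h8 : Nat.Coprime 8 (∏ q ∈ S, q) := by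
    apply Nat.Coprime.prod_right
    intro q hq
    have h2 : Nat.Coprime 2 q := (Nat.coprime_primes Nat.prime_two (hS q hq).1).2 (hS q hq).2.symm
    exact (Nat.Coprime.pow_left 3 h2 : Nat.Coprime (2 ^ 3) q)
  obtain ⟨A, hA8, hAS⟩ := Nat.chineseRemainder h8 c a
  have hP0 : ∏ q ∈ S, q ≠ 0 := by
    rw [prod_ne_zero_iff]
    exact fun q hq => (hS q hq).1.ne_zero
  have hA8' : A % 8 = c := by
    unfold Nat.ModEq at hA8
    rw [hA8]
    rcases hc with rfl | rfl | rfl | rfl <;> rfl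
  have hAq : ∀ q ∈ S, A ≡ v q [MOD q] := fun q hq =>
    (hAS.of_dvd (dvd_prod_of_mem _ hq)).trans (ha q hq)
  have hcop : A.Coprime (8 * ∏ q ∈ S, q) := by
    apply Nat.Coprime.mul_right
    · have h2 : Nat.Coprime A 2 := by
        rw [Nat.coprime_comm, Nat.coprime_two_left, Nat.odd_iff]
        omega
      exact (Nat.Coprime.pow_right 3 h2 : Nat.Coprime A (2 ^ 3))
    · apply Nat.Coprime.prod_right
      intro q hq
      rw [Nat.Coprime, (hAq q hq).gcd_eq]
      exact hv q hq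
  obtain ⟨p, -, hp, hpA⟩ := Nat.forall_exists_prime_gt_and_modEq 0
    (mul_ne_zero (by norm_num) hP0 : 8 * ∏ q ∈ S, q ≠ 0) hcop
  refine ⟨p, hp, ?_, fun q hq => ?_⟩
  · have h6 : p % 8 = A % 8 := hpA.of_dvd (Dvd.intro _ rfl)
    rw [h6, hA8']
  · exact (hpA.of_dvd ((dvd_prod_of_mem (fun q => q) hq).mul_left _)).trans (hAq q hq)

theorem Star_single (U : Finset ℕ) (hU2 : 2 ∈ U) (hUp : ∀ u ∈ U, u.Prime) (c : ℕ)
    (hc : c = 1 ∨ c = 3 ∨ c = 5 ∨ c = 7) (n : ℤ) (l : ℕ) (hl : l.Prime) (hlU : l ∉ U)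
    (hln : Odd (n.natAbs.factorization l)) : Star U c {n} := by
  classical
  intro ε hε
  have hl2 : l ≠ 2 := by rintro rfl; exact hlU hU2
  have hn0 : n.natAbs ≠ 0 := by
    intro h
    rw [h] at hln
    simp at hln
  have hlo : Odd l := hl.odd_of_ne_two hl2
  have hco : Odd c := by rw [Nat.odd_iff]; omega
  obtain ⟨S, hS⟩ : ∃ S : Finset ℕ, S = (U ∪ n.natAbs.primeFactors).filter (fun q => q ≠ 2) := ⟨_, rfl⟩
  have hSp : ∀ q ∈ S, q.Prime ∧ q ≠ 2 := by
    intro q hq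
    rw [hS, mem_filter, mem_union] at hq
    refine ⟨?_, hq.2⟩
    rcases hq.1 with h | h
    · exact hUp q h
    · exact Nat.prime_of_mem_primeFactors h
  have hsg : ∀ u, ∃ v : ℕ, (u ∈ U ∧ u ≠ 2) → v.Coprime u ∧ jacobiSym v u = qrSign c u * ε u := by
    intro u
    by_cases hu : u ∈ U ∧ u ≠ 2
    · have huo : Odd u := (hUp u hu.1).odd_of_ne_two hu.2
      have h1 : qrSign c u = 1 ∨ qrSign c u = -1 := by
        have h2 := qrSign.sq_eq_one hco huo
        have h3 : (qrSign c u - 1) * (qrSign c u + 1) = 0 := by linarith [h2, sq (qrSign c u)]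
        rcases mul_eq_zero.1 h3 with h | h
        · left; omega
        · right; omega
      obtain ⟨v, hv1, hv2⟩ := exists_sign u (hUp u hu.1) hu.2 (qrSign c u * ε u) (by
        rcases h1 with h | h <;> rcases hε u with h' | h' <;> rw [h, h'] <;> norm_num)
      exact ⟨v, fun _ => ⟨hv1, hv2⟩⟩
    · exact ⟨0, fun h => absurd h hu⟩
  choose g hg using hsg
  obtain ⟨w, hw1, hw2⟩ := exists_sign l hl hl2 (-1) (Or.inr rfl)
  have hlS : l ∈ S := by
    rw [hS, mem_filter, mem_union]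
    refine ⟨Or.inr ?_, hl2⟩
    rw [Nat.mem_primeFactors]
    refine ⟨hl, ?_, hn0⟩
    by_contra h
    rw [Nat.factorization_eq_zero_of_not_dvd h] at hln
    exact absurd hln (by decide)
  have hvp : ∀ t : ℕ, t.Coprime l → ∃ p : ℕ, p.Prime ∧ p % 8 = c ∧
      ∀ q ∈ S, p ≡ (if q = l then t else if q ∈ U then g q else 1) [MOD q] := by
    intro t ht
    apply exists_prime_classes c hc S hSp
    intro q hq
    split_ifs with h1 h2
    · rw [h1]; exact ht
    · exact (hg q ⟨h2, (hSp q hq).2⟩).1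
    · exact Nat.coprime_one_left _
  obtain ⟨p, hp, hp8, hpS⟩ := hvp w hw1
  obtain ⟨p', hp', hp'8, hp'S⟩ := hvp 1 (Nat.coprime_one_left _)
  have hpo := odd_of_mod8 hc hp8
  have hp'o := odd_of_mod8 hc hp'8
  -- the symbols of the primes of `U`
  have hsym : ∀ r : ℕ, r % 8 = c → (∀ q ∈ S, q ≠ l → r ≡ (if q ∈ U then g q else 1) [MOD q]) →
      ∀ u ∈ U, u ≠ 2 → jacobiSym u r = ε u := by
    intro r hr8 hrS u hu hu2
    have huo : Odd u := (hUp u hu).odd_of_ne_two hu2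
    have hro := odd_of_mod8 hc hr8
    have huS : u ∈ S := by
      rw [hS, mem_filter, mem_union]
      exact ⟨Or.inl hu, hu2⟩
    have hul : u ≠ l := by rintro rfl; exact hlU hu
    have h1 := hrS u huS hul
    rw [if_pos hu] at h1
    rw [jacobiSym.quadratic_reciprocity' huo hro, jac_of_modEq h1, (hg u ⟨hu, hu2⟩).2]
    have hχ : ZMod.χ₄ r = ZMod.χ₄ c := by
      rw [ZMod.χ₄_nat_mod_four r, ZMod.χ₄_nat_mod_four c, show r % 4 = c % 4 by omega]
    have e : qrSign r u = qrSign c u := by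
      unfold qrSign
      rw [hχ]
    have := qrSign.sq_eq_one hco huo
    rw [e, ← mul_assoc, ← sq, this, one_mul]
  have hpU := hsym p hp8 (fun q hq hql => by
    have := hpS q hq
    rwa [if_neg hql] at this)
  have hp'U := hsym p' hp'8 (fun q hq hql => by
    have := hp'S q hq
    rwa [if_neg hql] at this)
  -- the symbols of `n`
  have hl1 : jacobiSym l p = - jacobiSym l p' := by
    have h1 := hpS l hlS
    have h2 := hp'S l hlS
    rw [if_pos rfl] at h1 h2
    have hχ : ZMod.χ₄ p = ZMod.χ₄ p' := by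
      rw [ZMod.χ₄_nat_mod_four p, ZMod.χ₄_nat_mod_four p', show p % 4 = p' % 4 by omega]
    rw [jacobiSym.quadratic_reciprocity' hlo hpo, jacobiSym.quadratic_reciprocity' hlo hp'o,
      jac_of_modEq h1, jac_of_modEq h2, hw2, Nat.cast_one, jacobiSym.one_left]
    unfold qrSign
    rw [hχ]
    ring
  obtain ⟨e, he⟩ : ∃ e, e = n.natAbs.factorization l := ⟨_, rfl⟩
  obtain ⟨b, hb⟩ : ∃ b, b = n.natAbs / l ^ n.natAbs.factorization l := ⟨_, rfl⟩
  have hbn : n.natAbs = l ^ e * b := by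
    rw [hb, he]
    exact (Nat.ordProj_mul_ordCompl_eq_self n.natAbs l).symm
  have hb0 : b ≠ 0 := by
    rintro rfl
    rw [mul_zero] at hbn
    exact hn0 hbn
  have hlb : ¬ l ∣ b := by
    rw [hb]
    exact Nat.not_dvd_ordCompl hl hn0
  have hbs : jacobiSym (b : ℤ) p = jacobiSym (b : ℤ) p' := by
    apply jac_same (b : ℤ) (by exact_mod_cast hb0) p p' hpo hp'o (by omega)
    intro q hq hq2 hqb
    rw [Int.natAbs_natCast] at hqb
    have hqS : q ∈ S := by
      rw [hS, mem_filter, mem_union]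
      refine ⟨Or.inr ?_, hq2⟩
      rw [Nat.mem_primeFactors]
      exact ⟨hq, by rw [hbn]; exact hqb.mul_left _, hn0⟩
    have hql : q ≠ l := by rintro rfl; exact hlb hqb
    have h1 := hpS q hqS
    have h2 := hp'S q hqS
    rw [if_neg hql] at h1 h2
    exact jac_of_modEq (h1.trans h2.symm)
  have hns : jacobiSym (n.natAbs : ℤ) p = - jacobiSym (n.natAbs : ℤ) p' := by
    rw [hbn]
    push_cast
    rw [jacobiSym.mul_left, jacobiSym.mul_left, jacobiSym.pow_left, jacobiSym.pow_left, hbs, hl1]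
    rw [he, Odd.neg_pow hln]
    ring
  have hm1 : jacobiSym (-1) p = jacobiSym (-1) p' := by
    rw [jacobiSym.at_neg_one hpo, jacobiSym.at_neg_one hp'o, ZMod.χ₄_nat_mod_four p,
      ZMod.χ₄_nat_mod_four p', show p % 4 = p' % 4 by omega]
  have hfin : jacobiSym n p = - jacobiSym n p' := by
    rcases Int.natAbs_eq n with h | h
    · rw [h, hns]
    · rw [h, neg_eq_neg_one_mul, jacobiSym.mul_left, jacobiSym.mul_left, hns, hm1]
      ring
  -- `p` is large or the symbols are nonzero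
  have hnz : jacobiSym n p' ≠ 0 := by
    rw [Ne, jacobiSym.eq_zero_iff]
    rintro ⟨-, h⟩
    apply h
    change Nat.Coprime n.natAbs p'
    rw [Nat.coprime_comm, Nat.Prime.coprime_iff_not_dvd hp']
    intro hd
    have hp'2 : p' ≠ 2 := by
      rintro rfl
      exact absurd hp'o (by decide)
    have hpS' : p' ∈ S := by
      rw [hS, mem_filter, mem_union]
      exact ⟨Or.inr (Nat.mem_primeFactors.2 ⟨hp', hd, hn0⟩), hp'2⟩
    have h1 := hp'S p' hpS'
    have h2 : (if p' = l then 1 else if p' ∈ U then g p' else 1).Coprime p' := by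
      split_ifs with h3 h4
      · exact Nat.coprime_one_left _
      · exact (hg p' ⟨h4, hp'2⟩).1
      · exact Nat.coprime_one_left _
    rw [Nat.Coprime, ← h1.gcd_eq, Nat.gcd_self] at h2
    exact hp'.one_lt.ne' h2
  rcases jacobiSym.trichotomy n p' with h | h | h
  · exact absurd h hnz
  · refine ⟨p, hp, hp8, hpU, fun m hm => ?_⟩
    rw [mem_singleton] at hm
    rw [hm, hfin, h]
  · refine ⟨p', hp', hp'8, hp'U, fun m hm => ?_⟩
    rw [mem_singleton] at hm
    rw [hm, h]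

/-- primes `p`, `q` are joined if each is a primitive root modulo the other -/
def artin (S : Set ℕ) : SimpleGraph S where
  Adj p q := p ≠ q ∧ orderOf ((p : ℕ) : ZMod q) = q - 1 ∧ orderOf ((q : ℕ) : ZMod p) = p - 1
  symm := ⟨fun _ _ h => ⟨h.1.symm, h.2.2, h.2.1⟩⟩
  loopless := ⟨fun _ h => h.1 rfl⟩

theorem iso_rado {U : Finset ℕ} (hU : Univ U) {N : Finset ℤ} (c : ℕ) (hc : c = 1 ∨ c = 5)
    (hN : ∀ n ∈ N, Out U n) (hS : Star U c N) :
    Nonempty (artin (Vx U N) ≃g rado) := by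
  classical
  obtain ⟨e, he⟩ := bf (artin (Vx U N)).Adj rado.Adj id (fun _ => True)
    (fun x y _ => propext ⟨fun h => h.symm, fun h => h.symm⟩)
    (fun x y _ => propext ⟨fun h => h.symm, fun h => h.symm⟩) (fun _ _ _ => trivial)
    (fun _ _ _ => trivial) (by
      intro F g _
      obtain ⟨p, hp, hpF, -, h⟩ := ext_one hU c hc hN hS (F.image Subtype.val) (by
        intro q hq
        obtain ⟨q', -, rfl⟩ := mem_image.1 hq
        exact q'.2) (fun q => ∃ h : q ∈ Vx U N, g ⟨q, h⟩)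
      refine ⟨⟨p, hp⟩, fun hpF' => hpF (mem_image_of_mem _ hpF'), fun w hw => propext ?_⟩
      have h1 := h w (mem_image_of_mem _ hw)
      constructor
      · intro h2
        obtain ⟨_, h3⟩ := h1.1 h2.2
        exact h3
      · intro h2
        refine ⟨?_, h1.2 ⟨w.2, h2⟩⟩
        rintro rfl
        exact hpF (mem_image_of_mem _ hw)) (fun F g _ => rado_ext F g)
  refine ⟨⟨e, ?_⟩⟩
  intro x y
  by_cases hxy : x = y
  · subst hxy
    simp
  · exact (Iff.of_eq (he x y hxy)).symm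

theorem iso_arc {U : Finset ℕ} (hU : Univ U) {N : Finset ℤ} (c : ℕ) (hc : c = 3 ∨ c = 7)
    (hN : ∀ n ∈ N, Out U n) (hS : Star U c N) :
    ∃ e : {p : ℕ // p ∈ Vx U N ∧ p % 4 = 3} ≃ ℕ, ∀ p q : {p : ℕ // p ∈ Vx U N ∧ p % 4 = 3},
      (orderOf ((p : ℕ) : ZMod q) = q - 1 ↔ arc (e p) (e q)) := by
  classical
  obtain ⟨r, hr⟩ : ∃ r : {p : ℕ // p ∈ Vx U N ∧ p % 4 = 3} → {p : ℕ // p ∈ Vx U N ∧ p % 4 = 3} →
      Prop × Prop, r = fun (p q : {p : ℕ // p ∈ Vx U N ∧ p % 4 = 3}) =>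
        (orderOf ((p : ℕ) : ZMod q) = q - 1, orderOf ((q : ℕ) : ZMod p) = p - 1) := ⟨_, rfl⟩
  obtain ⟨s, hs⟩ : ∃ s : ℕ → ℕ → Prop × Prop, s = fun i j => (arc i j, arc j i) := ⟨_, rfl⟩
  have hnot : ∀ p q : {p : ℕ // p ∈ Vx U N ∧ p % 4 = 3},
      ¬ (orderOf ((p : ℕ) : ZMod q) = q - 1 ∧ orderOf ((q : ℕ) : ZMod p) = p - 1) := by
    rintro ⟨p, hpV, hp4⟩ ⟨q, hqV, hq4⟩ ⟨h1, h2⟩
    have hp5 := five_le hU hpV.1 hpV.2.1
    have hq5 := five_le hU hqV.1 hqV.2.1
    have h3 := jac_of_root hqV.1 (by omega) p h1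
    have h4 := jac_of_root hpV.1 (by omega) q h2
    have h5 := Pool.Agent.H482.MR.recip_three hp4 hq4
    rw [h3, h4] at h5
    norm_num at h5
  obtain ⟨e, he⟩ := bf r s Prod.swap (fun t => ¬ (t.1 ∧ t.2))
    (fun x y _ => by rw [hr]; rfl) (fun x y _ => by rw [hs]; rfl)
    (fun x y _ => by rw [hr]; exact hnot x y)
    (fun x y _ => by rw [hs]; rintro ⟨h1, h2⟩; exact arc_asymm x y h1 h2) (by
      intro F g hg
      obtain ⟨p, hp, hp4, hpF, h⟩ := ext_three hU c hc hN hS (F.image Subtype.val) (by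
        intro q hq
        obtain ⟨q', -, rfl⟩ := mem_image.1 hq
        exact q'.2) (fun q => if h : q ∈ Vx U N ∧ q % 4 = 3 then g ⟨q, h⟩ else (False, False)) (by
        intro q hq
        obtain ⟨q', hq', rfl⟩ := mem_image.1 hq
        rw [dif_pos q'.2]
        exact hg q' hq')
      refine ⟨⟨p, hp, hp4⟩, fun hpF' => hpF (mem_image_of_mem _ hpF'), fun w hw => ?_⟩
      have h1 := h w (mem_image_of_mem _ hw)
      rw [dif_pos w.2] at h1
      rw [hr]
      exact h1) (fun F g hg => by rw [hs]; exact arc_ext F g hg)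
  refine ⟨e, fun p q => ?_⟩
  by_cases hpq : p = q
  · subst hpq
    constructor
    · intro h
      exact absurd ⟨h, h⟩ (hnot p p)
    · intro h
      exact absurd h (arc_asymm _ _ h)
  · have h1 := he p q hpq
    rw [hr, hs] at h1
    exact Iff.of_eq (congrArg Prod.fst h1)

end Pool.Agent.H482.RG
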